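import Mathlib
import Pool.Graph.R_pool_sql_team_seeded_2aa45f1a.Q288.OM.Basic
import Pool.Graph.R_pool_sql_team_seeded_2aa45f1a.Q288.OM.Real

/-!
# Single-element extensions, modular cuts, uniform oriented matroids

`OMat α` (library module `Q288.OM.Basic`) is the type of oriented matroids with ground set the type
`α`, given by their signed circuits (nonempty, closed under negation, incomparable supports up to
sign, weak elimination); `OMat.toMatroid` is the underlying matroid (for finite `α`), its
independent sets are the sets which contain the support of no signed circuit.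
-/

set_option autoImplicit false

open Set Pool.Agent.Q288.OM

namespace Pool.Agent.H29.OM

/-- `O'`, an oriented matroid on `α ∪ {p}` (`p = none`), is a single-element extension of `O`: its
deletion of `p` equals `O`, i.e. the signed circuits of `O` are those of `O'` that avoid `p`. -/
def IsExtension {α : Type} (O : OMat α) (O' : OMat (Option α)) : Prop :=
  ∀ X : α → SignType, X ∈ O.circuits ↔ (fun o : Option α => o.elim 0 X) ∈ O'.circuits

/-- `𝓜` is a modular cut of the matroid `N`. -/
structure IsModularCut {α : Type} (N : Matroid α) (𝓜 : Set (Set α)) : Prop where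
  flat : ∀ F ∈ 𝓜, N.IsFlat F
  up : ∀ F ∈ 𝓜, ∀ G, N.IsFlat G → F ⊆ G → G ∈ 𝓜
  inter : ∀ F ∈ 𝓜, ∀ G ∈ 𝓜, N.eRk F + N.eRk G = N.eRk (F ∪ G) + N.eRk (F ∩ G) → F ∩ G ∈ 𝓜

/-- `O'` is a single-element extension of `O` which corresponds to the set `𝓜` of flats: a flat `F`
of the underlying matroid of `O` belongs to `𝓜` if and only if the new element `none` lies in the
closure of `F` in the underlying matroid of `O'`. -/
def Corresponds {α : Type} [Finite α] (O : OMat α) (O' : OMat (Option α)) (𝓜 : Set (Set α)) :
    Prop :=
  IsExtension O O' ∧
    ∀ F : Set α, F ∈ 𝓜 ↔ O.toMatroid.IsFlat F ∧ none ∈ O'.toMatroid.closure (some '' F)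

/-- Some oriented single-element extension of `O` corresponds to `𝓜`. -/
def Realized {α : Type} [Finite α] (O : OMat α) (𝓜 : Set (Set α)) : Prop :=
  ∃ O' : OMat (Option α), Corresponds O O' 𝓜

/-- The set of all flats that contain the element `a`. -/
def throughCut {α : Type} [Finite α] (O : OMat α) (a : α) : Set (Set α) :=
  {F | O.toMatroid.IsFlat F ∧ a ∈ F}

/-- `O` violates the extension property of Q1 at `a`: the set of the flats through `a` is a modular
cut to which an oriented extension of `O` corresponds, and it contains a modular cut to which no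
oriented extension of `O` corresponds. -/
def FailsAt {α : Type} [Finite α] (O : OMat α) (a : α) : Prop :=
  IsModularCut O.toMatroid (throughCut O a) ∧ Realized O (throughCut O a) ∧
    ∃ 𝓜' ⊆ throughCut O a, IsModularCut O.toMatroid 𝓜' ∧ ¬ Realized O 𝓜'

/-- The set of all flats that contain the elements `a` and `b`. -/
def throughCut₂ {α : Type} [Finite α] (O : OMat α) (a b : α) : Set (Set α) :=
  {F | O.toMatroid.IsFlat F ∧ a ∈ F ∧ b ∈ F}

/-- Every circuit has at least three elements: there are no loops and no parallel elements. -/
def IsSimple {α : Type} (O : OMat α) : Prop :=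
  ∀ X ∈ O.circuits, 3 ≤ (Function.support X).ncard

/-- `O` violates the extension property of Q1 at the pair `a`, `b`, with a simple extension: the set
of the flats through `a` and `b` is a modular cut to which a simple oriented extension of `O`
corresponds, and it contains a modular cut to which no oriented extension of `O` corresponds. -/
def FailsAtPair {α : Type} [Finite α] (O : OMat α) (a b : α) : Prop :=
  IsModularCut O.toMatroid (throughCut₂ O a b) ∧
    (∃ O' : OMat (Option α), Corresponds O O' (throughCut₂ O a b) ∧ IsSimple O') ∧
    ∃ 𝓜' ⊆ throughCut₂ O a b, IsModularCut O.toMatroid 𝓜' ∧ ¬ Realized O 𝓜'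

/-- The underlying matroid of `O` is the uniform matroid of rank `r` on the ground set: the
independent sets are the sets of at most `r` elements (and there are at least `r` elements). -/
def IsUniform {α : Type} [Finite α] (O : OMat α) (r : ℕ) : Prop :=
  r ≤ Nat.card α ∧ ∀ I : Set α, O.toMatroid.Indep I ↔ I.ncard ≤ r

/-- The six elements `x 0, …, x 5` are in general position over `A`: they are distinct, not in `A`,
and any three of them complete `A` to a basis of the underlying matroid.  (So `A` is independent,
the contraction of `A` has rank `3`, and its restriction to the six elements is `U_{3,6}`.) -/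
def Generic6 {α : Type} [Finite α] (O : OMat α) (A : Set α) (x : Fin 6 → α) : Prop :=
  Function.Injective x ∧ (∀ i, x i ∉ A) ∧
    ∀ i j k : Fin 6, i ≠ j → i ≠ k → j ≠ k → O.toMatroid.IsBase (A ∪ {x i, x j, x k})

/-- The closure of `A ∪ {x i, x j}` (a hyperplane if the six elements are in general position over
`A` and `i ≠ j`). -/
def plane {α : Type} [Finite α] (O : OMat α) (A : Set α) (x : Fin 6 → α) (i j : Fin 6) : Set α :=
  O.toMatroid.closure (A ∪ {x i, x j})

/-- The set consisting of the closures of `A ∪ {x 0, x 1}`, `A ∪ {x 2, x 3}`, `A ∪ {x 4, x 5}` and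
of the whole ground set. -/
def planesCut {α : Type} [Finite α] (O : OMat α) (A : Set α) (x : Fin 6 → α) : Set (Set α) :=
  {plane O A x 0 1, plane O A x 2 3, plane O A x 4 5, Set.univ}

/-- No element outside the closure of `A` lies on two of the hyperplanes spanned by `A` and disjoint
pairs of the six elements. -/
def Separated {α : Type} [Finite α] (O : OMat α) (A : Set α) (x : Fin 6 → α) : Prop :=
  ∀ i j k l : Fin 6, i ≠ j → i ≠ k → i ≠ l → j ≠ k → j ≠ l → k ≠ l →
    plane O A x i j ∩ plane O A x k l ⊆ O.toMatroid.closure A

end Pool.Agent.H29.OM
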