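import Mathlib
import Pool.Agent.H29.OM.Defs

/-!
# Alternating oriented matroids: uniform oriented matroids of every rank
-/

set_option autoImplicit false

open Set Pool.Agent.Q288.OM

namespace Pool.Agent.H29.OM

/-- points of the moment curve -/
def mom (n r : ℕ) (a : Fin n) (i : Fin r) : ℝ := ((a : ℕ) : ℝ) ^ (i : ℕ)

theorem mem_ker_mom {n r : ℕ} {x : Fin n → ℝ} :
    x ∈ LinearMap.ker (Fintype.linearCombination ℝ (mom n r)) ↔
      ∀ i : Fin r, ∑ a : Fin n, x a * ((a : ℕ) : ℝ) ^ (i : ℕ) = 0 := by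
  rw [LinearMap.mem_ker, Fintype.linearCombination_apply, funext_iff]
  apply forall_congr'
  intro i
  rw [Finset.sum_apply]
  simp [mom]

theorem card_of_mem_ker {n r : ℕ} {x : Fin n → ℝ}
    (hx : x ∈ LinearMap.ker (Fintype.linearCombination ℝ (mom n r))) (hx0 : x ≠ 0) {I : Set (Fin n)}
    (hI : Function.support x ⊆ I) : r < I.ncard := by
  classical
  by_contra hlt
  push Not at hlt
  rw [mem_ker_mom] at hx
  obtain ⟨a0, ha0⟩ := Function.ne_iff.1 hx0
  have ha0' : x a0 ≠ 0 := ha0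
  have ha0I : a0 ∈ I := hI ha0'
  set J : Finset (Fin n) := (Set.toFinite I).toFinset.erase a0 with hJ
  have hJc : J.card < r := by
    rw [hJ, Finset.card_erase_of_mem ((Set.Finite.mem_toFinset _).2 ha0I)]
    rw [← Set.ncard_eq_toFinset_card I (Set.toFinite I)]
    have : 0 < I.ncard := (Set.ncard_pos (Set.toFinite I)).2 ⟨a0, ha0I⟩
    omega
  set p : Polynomial ℝ := ∏ b ∈ J, (Polynomial.X - Polynomial.C ((b : ℕ) : ℝ)) with hp
  have hdeg : p.natDegree < r := by
    rw [hp, Polynomial.natDegree_finsetProd_X_sub_C_eq_card]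
    exact hJc
  have hsum : ∑ a : Fin n, x a * p.eval ((a : ℕ) : ℝ) = 0 := by
    have h1 : ∀ a : Fin n, x a * p.eval ((a : ℕ) : ℝ) =
        ∑ i ∈ Finset.range r, p.coeff i * (x a * ((a : ℕ) : ℝ) ^ i) := by
      intro a
      rw [Polynomial.eval_eq_sum_range' hdeg, Finset.mul_sum]
      apply Finset.sum_congr rfl
      intro i _
      ring
    simp_rw [h1]
    rw [Finset.sum_comm]
    apply Finset.sum_eq_zero
    intro i hi
    rw [← Finset.mul_sum, hx ⟨i, Finset.mem_range.1 hi⟩, mul_zero]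
  rw [Finset.sum_eq_single a0] at hsum
  · rcases mul_eq_zero.1 hsum with h | h
    · exact ha0' h
    · rw [hp, Polynomial.eval_prod, Finset.prod_eq_zero_iff] at h
      obtain ⟨b, hb, hb'⟩ := h
      rw [Polynomial.eval_sub, Polynomial.eval_X, Polynomial.eval_C, sub_eq_zero] at hb'
      have h2 : a0 = b := by
        apply Fin.ext
        exact_mod_cast hb'
      rw [hJ] at hb
      exact (Finset.ne_of_mem_erase hb) h2.symm
  · intro b _ hb
    by_cases h : x b = 0
    · rw [h, zero_mul]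
    · have hbJ : b ∈ J := by
        rw [hJ, Finset.mem_erase]
        exact ⟨hb, (Set.Finite.mem_toFinset _).2 (hI h)⟩
      have : p.eval ((b : ℕ) : ℝ) = 0 := by
        rw [hp, Polynomial.eval_prod]
        apply Finset.prod_eq_zero hbJ
        simp
      rw [this, mul_zero]
  · intro h
    exact absurd (Finset.mem_univ a0) h

theorem exists_mem_ker {n r : ℕ} {I : Set (Fin n)} (hI : r < I.ncard) :
    ∃ x ∈ LinearMap.ker (Fintype.linearCombination ℝ (mom n r)), x ≠ 0 ∧
      Function.support x ⊆ I := by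
  classical
  let g : (Fin n → ℝ) →ₗ[ℝ] ((Fin r → ℝ) × ((Iᶜ : Set (Fin n)) → ℝ)) :=
    (Fintype.linearCombination ℝ (mom n r)).prod
      (LinearMap.funLeft ℝ ℝ (Subtype.val : (Iᶜ : Set (Fin n)) → Fin n))
  have hrank : Module.finrank ℝ ((Fin r → ℝ) × ((Iᶜ : Set (Fin n)) → ℝ)) <
      Module.finrank ℝ (Fin n → ℝ) := by
    rw [Module.finrank_prod, Module.finrank_fin_fun, Module.finrank_fin_fun,
      Module.finrank_fintype_fun_eq_card]
    have h1 : Fintype.card (Iᶜ : Set (Fin n)) = (Iᶜ : Set (Fin n)).ncard := by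
      rw [Set.ncard_eq_toFinset_card', Set.toFinset_card]
    have h2 := Set.ncard_add_ncard_compl I
    rw [Nat.card_eq_fintype_card, Fintype.card_fin] at h2
    omega
  have hker := LinearMap.ker_ne_bot_of_finrank_lt (f := g) hrank
  obtain ⟨x, hx, hx0⟩ := Submodule.exists_mem_ne_zero_of_ne_bot hker
  have hx' : g x = 0 := hx
  have h1 : Fintype.linearCombination ℝ (mom n r) x = 0 := congrArg Prod.fst hx'
  have h2 : LinearMap.funLeft ℝ ℝ (Subtype.val : (Iᶜ : Set (Fin n)) → Fin n) x = 0 :=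
    congrArg Prod.snd hx'
  refine ⟨x, h1, hx0, ?_⟩
  intro a ha
  by_contra haI
  exact ha (congrFun h2 ⟨a, haI⟩)

theorem exists_uniform (r n : ℕ) (h : r ≤ n) : ∃ O : OMat (Fin n), IsUniform O r := by
  refine ⟨ofVec (mom n r), by simpa using h, ?_⟩
  intro I
  rw [OMat.toMatroid_indep]
  constructor
  · intro hI
    by_contra hlt
    push Not at hlt
    obtain ⟨x, hx, hx0, hxs⟩ := exists_mem_ker hlt
    obtain ⟨a, ha⟩ := Function.ne_iff.1 hx0
    obtain ⟨y, hy, -, hys⟩ := exists_elem_of_mem _ a x hx ha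
    exact hI (sgn y) ⟨y, hy, rfl⟩ (by rw [support_sgn]; exact hys.trans hxs)
  · rintro hI X ⟨x, hx, rfl⟩ hs
    rw [support_sgn] at hs
    have := card_of_mem_ker hx.1 hx.2.1 hs
    omega

end Pool.Agent.H29.OM
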