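import Mathlib
import Pool.Agent.H29.OM.Defs

/-!
# The parallel extension
-/

set_option autoImplicit false

open Set Pool.Agent.Q288.OM

namespace Pool.Agent.H29.OM

open Classical in
/-- `X` with the element `a` replaced by `none` -/
noncomputable def repl {α : Type} (a : α) (X : α → SignType) : Option α → SignType
  | none => X a
  | some e => if e = a then 0 else X e

/-- `X` as a signed subset of `α ∪ {none}` -/
def keep {α : Type} (X : α → SignType) : Option α → SignType
  | none => 0
  | some e => X e

open Classical in
/-- the signed circuit `{a, none}` with signs `s` and `-s` -/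
noncomputable def parc {α : Type} (a : α) (s : SignType) : Option α → SignType
  | none => -s
  | some e => if e = a then s else 0

variable {α : Type}

@[simp] theorem repl_none (a : α) (X : α → SignType) : repl a X none = X a := rfl
@[simp] theorem repl_self (a : α) (X : α → SignType) : repl a X (some a) = 0 := by simp [repl]
theorem repl_ne {a e : α} (h : e ≠ a) (X : α → SignType) : repl a X (some e) = X e := by
  simp [repl, h]
@[simp] theorem keep_none (X : α → SignType) : keep X none = 0 := rfl
@[simp] theorem keep_some (e : α) (X : α → SignType) : keep X (some e) = X e := rfl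
@[simp] theorem parc_none (a : α) (s : SignType) : parc a s none = -s := rfl
@[simp] theorem parc_self (a : α) (s : SignType) : parc a s (some a) = s := by simp [parc]
theorem parc_ne {a e : α} (h : e ≠ a) (s : SignType) : parc a s (some e) = 0 := by
  simp [parc, h]

theorem neg_repl (a : α) (X : α → SignType) : -repl a X = repl a (-X) := by
  funext o
  rcases o with _ | e
  · simp
  · by_cases h : e = a
    · subst h; simp
    · simp [repl_ne h]

theorem neg_keep (X : α → SignType) : -keep X = keep (-X) := by
  funext o
  rcases o with _ | e <;> simp

theorem neg_parc (a : α) (s : SignType) : -parc a s = parc a (-s) := by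
  funext o
  rcases o with _ | e
  · simp
  · by_cases h : e = a
    · subst h; simp
    · simp [parc_ne h]

theorem sign_ne_neg {s : SignType} (hs : s ≠ 0) : s ≠ -s := by revert s; decide

theorem neg_ne_zero' {s : SignType} (hs : s ≠ 0) : -s ≠ 0 := by revert s; decide

theorem sign_two {s t : SignType} (hs : s ≠ 0) (ht : t ≠ 0) : s = t ∨ s = -t := by
  revert s t; decide

/-- the parallel extension -/
noncomputable def parExt (O : OMat α) (a : α)
    (ha : ∀ X ∈ O.circuits, ∃ b, b ≠ a ∧ X b ≠ 0) : OMat (Option α) where
  circuits := {Y | (∃ X ∈ O.circuits, Y = keep X) ∨ (∃ X ∈ O.circuits, X a ≠ 0 ∧ Y = repl a X) ∨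
    ∃ s : SignType, s ≠ 0 ∧ Y = parc a s}
  zero_notMem := by
    rintro (⟨X, hX, h⟩ | ⟨X, hX, hXa, h⟩ | ⟨s, hs, h⟩)
    · apply O.zero_notMem
      have : X = 0 := by
        funext e
        have := congrFun h (some e)
        simpa using this.symm
      rwa [this] at hX
    · have := congrFun h none
      exact hXa (by simpa using this.symm)
    · have := congrFun h (some a)
      exact hs (by simpa using this.symm)
  neg_mem := by
    rintro Y (⟨X, hX, rfl⟩ | ⟨X, hX, hXa, rfl⟩ | ⟨s, hs, rfl⟩)
    · exact Or.inl ⟨-X, O.neg_mem X hX, neg_keep X⟩
    · exact Or.inr (Or.inl ⟨-X, O.neg_mem X hX, neg_ne_zero' hXa, neg_repl a X⟩)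
    · exact Or.inr (Or.inr ⟨-s, neg_ne_zero' hs, neg_parc a s⟩)
  incomp := by
    rintro Y (⟨X, hX, rfl⟩ | ⟨X, hX, hXa, rfl⟩ | ⟨s, hs, rfl⟩) Y'
      (⟨X', hX', rfl⟩ | ⟨X', hX', hXa', rfl⟩ | ⟨t, ht, rfl⟩) h
    · have h1 : Function.support X ⊆ Function.support X' := by
        intro e he
        have : some e ∈ Function.support (keep X') := h (by simpa using he)
        simpa using this
      rcases O.incomp X hX X' hX' h1 with h2 | h2
      · left; rw [h2]
      · right; rw [h2, neg_keep]
    · exfalso
      have h1 : ∀ e, X e ≠ 0 → e ≠ a ∧ X' e ≠ 0 := by
        intro e he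
        have h3 : some e ∈ Function.support (repl a X') := h (by simpa using he)
        by_cases h4 : e = a
        · subst h4
          simp at h3
        · refine ⟨h4, ?_⟩
          rw [Function.mem_support, repl_ne h4] at h3
          exact h3
      have h5 : X a = 0 := by
        by_contra h6
        exact (h1 a h6).1 rfl
      rcases O.incomp X hX X' hX' (fun e he => (h1 e he).2) with h2 | h2
      · rw [h2] at h5; exact hXa' h5
      · rw [h2] at h5
        exact neg_ne_zero' hXa' h5
    · exfalso
      obtain ⟨b, hb, hXb⟩ := ha X hX
      have h3 : some b ∈ Function.support (parc a t) := h (by simpa using hXb)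
      rw [Function.mem_support, parc_ne hb] at h3
      exact h3 rfl
    · exfalso
      have h3 : none ∈ Function.support (keep X') := h (by simpa using hXa)
      simp at h3
    · have h1 : Function.support X ⊆ Function.support X' := by
        intro e he
        by_cases h4 : e = a
        · subst h4; exact hXa'
        · have h3 : some e ∈ Function.support (repl a X') :=
            h (by rw [Function.mem_support, repl_ne h4]; exact he)
          rw [Function.mem_support, repl_ne h4] at h3
          exact h3
      rcases O.incomp X hX X' hX' h1 with h2 | h2
      · left; rw [h2]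
      · right; rw [h2, neg_repl]
    · exfalso
      obtain ⟨b, hb, hXb⟩ := ha X hX
      have h3 : some b ∈ Function.support (parc a t) :=
        h (by rw [Function.mem_support, repl_ne hb]; exact hXb)
      rw [Function.mem_support, parc_ne hb] at h3
      exact h3 rfl
    · exfalso
      have h3 : none ∈ Function.support (keep X') := h (by simpa using neg_ne_zero' hs)
      simp at h3
    · exfalso
      have h3 : some a ∈ Function.support (repl a X') := h (by simpa using hs)
      simp at h3
    · rcases sign_two hs ht with h1 | h1
      · left; rw [h1]
      · right; rw [h1, neg_parc]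
  elim := by
    rintro Y (⟨X, hX, rfl⟩ | ⟨X, hX, hXa, rfl⟩ | ⟨s, hs, rfl⟩) Y'
      (⟨X', hX', rfl⟩ | ⟨X', hX', hXa', rfl⟩ | ⟨t, ht, rfl⟩) hne o ho ho'
    · -- keep, keep
      rcases o with _ | e
      · simp at ho
      have h1 : X ≠ -X' := by
        rintro h; apply hne; rw [neg_keep, h]
      obtain ⟨Z, hZ, hZe, hZf⟩ := O.elim X hX X' hX' h1 e (by simpa using ho) (by simpa using ho')
      refine ⟨keep Z, Or.inl ⟨Z, hZ, rfl⟩, by simpa using hZe, ?_⟩
      intro o' ho''
      rcases o' with _ | f
      · simp at ho''
      · simpa using hZf f (by simpa using ho'')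
    · -- keep X, repl X'
      rcases o with _ | e
      · simp at ho
      have hea : e ≠ a := by
        rintro rfl
        simp at ho'
        exact neg_ne_zero' (by simpa using ho : X e ≠ 0) ho'.symm
      rw [repl_ne hea, keep_some] at ho'
      rw [keep_some] at ho
      by_cases h1 : X = -X'
      · refine ⟨parc a (X a), Or.inr (Or.inr ⟨X a, ?_, rfl⟩), parc_ne hea _, ?_⟩
        · rw [h1]; exact neg_ne_zero' hXa'
        · intro o' ho''
          rcases o' with _ | f
          · right; simp [h1]
          · by_cases h2 : f = a
            · subst h2; left; simp
            · rw [parc_ne h2] at ho''; exact absurd rfl ho''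
      · obtain ⟨Z, hZ, hZe, hZf⟩ := O.elim X hX X' hX' h1 e ho ho'
        by_cases hZa : Z a = 0 ∨ Z a = X a
        · refine ⟨keep Z, Or.inl ⟨Z, hZ, rfl⟩, by simpa using hZe, ?_⟩
          intro o' ho''
          rcases o' with _ | f
          · simp at ho''
          · rw [keep_some] at ho''
            by_cases h2 : f = a
            · subst h2
              left
              rcases hZa with h3 | h3
              · exact absurd h3 ho''
              · simpa using h3
            · rw [repl_ne h2]
              simpa using hZf f ho''
        · push Not at hZa
          have h3 : Z a = X' a := by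
            rcases hZf a hZa.1 with h4 | h4
            · exact absurd h4 hZa.2
            · exact h4
          refine ⟨repl a Z, Or.inr (Or.inl ⟨Z, hZ, hZa.1, rfl⟩), by rw [repl_ne hea]; exact hZe, ?_⟩
          intro o' ho''
          rcases o' with _ | f
          · right; simpa using h3
          · by_cases h2 : f = a
            · subst h2; simp at ho''
            · rw [repl_ne h2] at ho'' ⊢
              rw [repl_ne h2]
              simpa using hZf f ho''
    · -- keep X, parc t
      rcases o with _ | e
      · simp at ho
      have hea : e = a := by
        by_contra h2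
        rw [parc_ne h2, keep_some] at ho'
        rw [keep_some] at ho
        exact neg_ne_zero' ho ho'.symm
      subst hea
      rw [parc_self, keep_some] at ho'
      rw [keep_some] at ho
      refine ⟨repl e X, Or.inr (Or.inl ⟨X, hX, ho, rfl⟩), by simp, ?_⟩
      intro o' ho''
      rcases o' with _ | f
      · right; simp [ho']
      · by_cases h2 : f = e
        · subst h2; simp at ho''
        · left; rw [repl_ne h2]; rfl
    · -- repl X, keep X'
      rcases o with _ | e
      · simp at ho'
        exact absurd ho'.symm (by simpa using neg_ne_zero' hXa)
      have hea : e ≠ a := by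
        rintro rfl
        simp at ho
      rw [repl_ne hea, keep_some] at ho'
      rw [repl_ne hea] at ho
      by_cases h1 : X = -X'
      · refine ⟨parc a (X' a), Or.inr (Or.inr ⟨X' a, ?_, rfl⟩), parc_ne hea _, ?_⟩
        · intro h2; apply hXa; rw [h1]; simp [h2]
        · intro o' ho''
          rcases o' with _ | f
          · left; simp [h1]
          · by_cases h2 : f = a
            · subst h2; right; simp
            · rw [parc_ne h2] at ho''; exact absurd rfl ho''
      · obtain ⟨Z, hZ, hZe, hZf⟩ := O.elim X hX X' hX' h1 e ho ho'
        by_cases hZa : Z a = 0 ∨ Z a = X' a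
        · refine ⟨keep Z, Or.inl ⟨Z, hZ, rfl⟩, by simpa using hZe, ?_⟩
          intro o' ho''
          rcases o' with _ | f
          · simp at ho''
          · rw [keep_some] at ho''
            by_cases h2 : f = a
            · subst h2
              right
              rcases hZa with h3 | h3
              · exact absurd h3 ho''
              · simpa using h3
            · rw [repl_ne h2]
              simpa using hZf f ho''
        · push Not at hZa
          have h3 : Z a = X a := by
            rcases hZf a hZa.1 with h4 | h4
            · exact h4
            · exact absurd h4 hZa.2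
          refine ⟨repl a Z, Or.inr (Or.inl ⟨Z, hZ, hZa.1, rfl⟩), by rw [repl_ne hea]; exact hZe, ?_⟩
          intro o' ho''
          rcases o' with _ | f
          · left; simpa using h3
          · by_cases h2 : f = a
            · subst h2; simp at ho''
            · rw [repl_ne h2] at ho'' ⊢
              rw [repl_ne h2]
              simpa using hZf f ho''
    · -- repl X, repl X'
      have h1 : X ≠ -X' := by
        rintro h; apply hne; rw [neg_repl, h]
      rcases o with _ | e
      · obtain ⟨Z, hZ, hZe, hZf⟩ := O.elim X hX X' hX' h1 a (by simpa using ho)
          (by simpa using ho')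
        refine ⟨keep Z, Or.inl ⟨Z, hZ, rfl⟩, by simp, ?_⟩
        intro o' ho''
        rcases o' with _ | f
        · simp at ho''
        · rw [keep_some] at ho''
          by_cases h2 : f = a
          · subst h2; exact absurd hZe ho''
          · rw [repl_ne h2, repl_ne h2]
            simpa using hZf f ho''
      · have hea : e ≠ a := by
          rintro rfl
          simp at ho
        rw [repl_ne hea] at ho ho'
        rw [repl_ne hea] at ho'
        obtain ⟨Z, hZ, hZe, hZf⟩ := O.elim X hX X' hX' h1 e ho ho'
        by_cases hZa : Z a = 0
        · refine ⟨keep Z, Or.inl ⟨Z, hZ, rfl⟩, by simpa using hZe, ?_⟩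
          intro o' ho''
          rcases o' with _ | f
          · simp at ho''
          · rw [keep_some] at ho''
            by_cases h2 : f = a
            · subst h2; exact absurd hZa ho''
            · rw [repl_ne h2, repl_ne h2]
              simpa using hZf f ho''
        · refine ⟨repl a Z, Or.inr (Or.inl ⟨Z, hZ, hZa, rfl⟩), by rw [repl_ne hea]; exact hZe, ?_⟩
          intro o' ho''
          rcases o' with _ | f
          · simpa using hZf a hZa
          · by_cases h2 : f = a
            · subst h2; simp at ho''
            · rw [repl_ne h2] at ho'' ⊢
              rw [repl_ne h2, repl_ne h2]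
              exact hZf f ho''
    · -- repl X, parc t
      rcases o with _ | e
      · rw [parc_none, repl_none] at ho'
        rw [repl_none] at ho
        have ht' : t = X a := by simpa using ho'
        refine ⟨keep X, Or.inl ⟨X, hX, rfl⟩, by simp, ?_⟩
        intro o' ho''
        rcases o' with _ | f
        · simp at ho''
        · by_cases h2 : f = a
          · subst h2; right; simp [ht']
          · left; rw [repl_ne h2]; rfl
      · exfalso
        by_cases h2 : e = a
        · subst h2; simp at ho
        · rw [parc_ne h2, repl_ne h2] at ho'
          rw [repl_ne h2] at ho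
          exact neg_ne_zero' ho ho'.symm
    · -- parc s, keep X'
      rcases o with _ | e
      · simp at ho'
        exact absurd ho'.symm hs
      have hea : e = a := by
        by_contra h2
        rw [parc_ne h2] at ho
        exact ho rfl
      subst hea
      rw [parc_self, keep_some] at ho'
      have hX'e : X' e ≠ 0 := by rw [ho']; exact neg_ne_zero' hs
      refine ⟨repl e X', Or.inr (Or.inl ⟨X', hX', hX'e, rfl⟩), by simp, ?_⟩
      intro o' ho''
      rcases o' with _ | f
      · left; simp [ho']
      · by_cases h2 : f = e
        · subst h2; simp at ho''
        · right; rw [repl_ne h2]; rfl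
    · -- parc s, repl X'
      rcases o with _ | e
      · rw [repl_none, parc_none, neg_neg] at ho'
        refine ⟨keep X', Or.inl ⟨X', hX', rfl⟩, by simp, ?_⟩
        intro o' ho''
        rcases o' with _ | f
        · simp at ho''
        · by_cases h2 : f = a
          · subst h2; left; simp [ho']
          · right; rw [repl_ne h2]; rfl
      · exfalso
        by_cases h2 : e = a
        · subst h2
          simp at ho'
          exact hs (by simpa using ho'.symm)
        · rw [parc_ne h2] at ho
          exact ho rfl
    · -- parc, parc
      exfalso
      apply hne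
      rcases sign_two hs ht with h1 | h1
      · subst h1
        exact absurd ho' (sign_ne_neg ho)
      · rw [h1, neg_parc]

theorem parExt_isExtension (O : OMat α) (a : α)
    (ha : ∀ X ∈ O.circuits, ∃ b, b ≠ a ∧ X b ≠ 0) : IsExtension O (parExt O a ha) := by
  intro X
  have hk : (fun o : Option α => o.elim 0 X) = keep X := by
    funext o
    rcases o with _ | e <;> rfl
  rw [hk]
  constructor
  · intro hX
    exact Or.inl ⟨X, hX, rfl⟩
  · rintro (⟨X', hX', h⟩ | ⟨X', hX', hXa, h⟩ | ⟨s, hs, h⟩)
    · have : X = X' := by
        funext e
        exact congrFun h (some e)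
      rwa [this]
    · exfalso
      have := congrFun h none
      exact hXa (by simpa using this.symm)
    · exfalso
      have := congrFun h none
      exact neg_ne_zero' hs (by simpa using this.symm)

theorem realized_throughCut [Finite α] (O : OMat α) (a : α)
    (ha : ∀ X ∈ O.circuits, ∃ b, b ≠ a ∧ X b ≠ 0) : Realized O (throughCut O a) := by
  refine ⟨parExt O a ha, parExt_isExtension O a ha, ?_⟩
  intro F
  constructor
  · rintro ⟨hF, haF⟩
    refine ⟨hF, ?_⟩
    rw [OMat.mem_closure_iff _ (by simp)]
    refine ⟨parc a 1, Or.inr (Or.inr ⟨1, by decide, rfl⟩),
      (by show (-1 : SignType) ≠ 0; decide), ?_⟩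
    intro o ho
    rcases o with _ | e
    · exact Or.inl rfl
    · by_cases h2 : e = a
      · subst h2; exact Or.inr ⟨e, haF, rfl⟩
      · rw [Function.mem_support, parc_ne h2] at ho
        exact absurd rfl ho
  · rintro ⟨hF, hcl⟩
    refine ⟨hF, ?_⟩
    rw [OMat.mem_closure_iff _ (by simp)] at hcl
    obtain ⟨Y, hY, hYn, hYs⟩ := hcl
    rcases hY with ⟨X, hX, rfl⟩ | ⟨X, hX, hXa, rfl⟩ | ⟨s, hs, rfl⟩
    · exact absurd rfl hYn
    · by_contra haF
      apply haF
      rw [← hF.closure]
      rw [O.mem_closure_iff haF]
      refine ⟨X, hX, hXa, ?_⟩
      intro e he
      by_cases h2 : e = a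
      · exact Or.inl h2
      · have h3 : some e ∈ insert (none : Option α) (some '' F) :=
          hYs (by rw [Function.mem_support, repl_ne h2]; exact he)
        right
        simpa using h3
    · have h3 : some a ∈ insert (none : Option α) (some '' F) :=
        hYs (by simpa using hs)
      simpa using h3

end Pool.Agent.H29.OM
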