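import Mathlib
import Pool.Agent.H29.OM.Par

/-!
# Six elements in general position over a set: the general form
-/

set_option autoImplicit false

open Set Pool.Agent.Q288.OM

namespace Pool.Agent.H29.OM

variable {α : Type} [Finite α]

variable {O : OMat α} {A : Set α} {x : Fin 6 → α}

theorem Generic6.base (G : Generic6 O A x) {s : Finset (Fin 6)} (hs : s.card = 3) :
    O.toMatroid.IsBase (A ∪ x '' s) := by
  obtain ⟨i, j, k, h1, h2, h3, rfl⟩ := Finset.card_eq_three.1 hs
  have := G.2.2 i j k h1 h2 h3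
  simpa [Set.image_insert_eq] using this

theorem Generic6.indep (G : Generic6 O A x) {s : Finset (Fin 6)} (hs : s.card ≤ 3) :
    O.toMatroid.Indep (A ∪ x '' s) := by
  obtain ⟨t, hst, ht⟩ : ∃ t : Finset (Fin 6), s ⊆ t ∧ t.card = 3 := by
    obtain ⟨t, h1, -, h2⟩ := Finset.exists_subsuperset_card_eq (Finset.subset_univ s) hs
      (by simp)
    exact ⟨t, h1, h2⟩
  exact (G.base ht).indep.subset (Set.union_subset_union_right _ (Set.image_mono (by simpa using hst)))

theorem Generic6.ne_zero (G : Generic6 O A x) {s : Finset (Fin 6)} (hs : s.card = 4)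
    {X : α → SignType} (hX : X ∈ O.circuits) (hXs : Function.support X ⊆ A ∪ x '' s) {i : Fin 6}
    (hi : i ∈ s) : X (x i) ≠ 0 := by
  intro h0
  have h1 := G.indep (s := s.erase i) (by rw [Finset.card_erase_of_mem hi, hs])
  rw [OMat.toMatroid_indep] at h1
  apply h1 X hX
  intro e he
  rcases hXs he with h | ⟨j, hj, rfl⟩
  · exact Or.inl h
  · refine Or.inr ⟨j, ?_, rfl⟩
    simp only [Finset.coe_erase]
    refine ⟨hj, ?_⟩
    rintro rfl
    exact he h0

theorem Generic6.unique (G : Generic6 O A x) {s : Finset (Fin 6)} (hs : s.card = 4)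
    {X Y : α → SignType} (hX : X ∈ O.circuits) (hXs : Function.support X ⊆ A ∪ x '' s)
    (hY : Y ∈ O.circuits) (hYs : Function.support Y ⊆ A ∪ x '' s) : X = Y ∨ X = -Y := by
  obtain ⟨i, hi⟩ : s.Nonempty := by rw [← Finset.card_pos]; omega
  have h1 := G.indep (s := s.erase i) (by rw [Finset.card_erase_of_mem hi, hs])
  rw [OMat.toMatroid_indep] at h1
  have h2 : A ∪ x '' s ⊆ insert (x i) (A ∪ x '' (s.erase i : Finset (Fin 6))) := by
    rintro e (h | ⟨j, hj, rfl⟩)
    · exact Or.inr (Or.inl h)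
    · by_cases hji : j = i
      · subst hji; exact Or.inl rfl
      · refine Or.inr (Or.inr ⟨j, ?_, rfl⟩)
        simp only [Finset.coe_erase]
        exact ⟨hj, hji⟩
  have h3 := OMat.support_eq_of_subset_insert h1 hX hY (hXs.trans h2) (hYs.trans h2)
  exact O.incomp X hX Y hY h3.subset

theorem Generic6.exists_circ (G : Generic6 O A x) {s : Finset (Fin 6)} (hs : s.card = 4) :
    ∃ X ∈ O.circuits, Function.support X ⊆ A ∪ x '' s := by
  obtain ⟨i, hi⟩ : s.Nonempty := by rw [← Finset.card_pos]; omega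
  have h1 := G.base (s := s.erase i) (by rw [Finset.card_erase_of_mem hi, hs])
  have h2 : x i ∉ A ∪ x '' (s.erase i : Finset (Fin 6)) := by
    rintro (h | ⟨j, hj, h⟩)
    · exact G.2.1 i h
    · simp only [Finset.coe_erase] at hj
      exact hj.2 (G.1 h)
  have h3 := h1.insert_dep (e := x i) ⟨by simp, h2⟩
  have h4 : ¬ O.Indep (insert (x i) (A ∪ x '' (s.erase i : Finset (Fin 6)))) := by
    rw [← OMat.toMatroid_indep]
    exact h3.not_indep
  unfold OMat.Indep at h4
  push Not at h4
  obtain ⟨X, hX, hXs⟩ := h4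
  refine ⟨X, hX, hXs.trans ?_⟩
  rintro e (rfl | h | ⟨j, hj, rfl⟩)
  · exact Or.inr ⟨i, hi, rfl⟩
  · exact Or.inl h
  · simp only [Finset.coe_erase] at hj
    exact Or.inr ⟨j, hj.1, rfl⟩

theorem sign_eq_or {a b : SignType} (ha : a ≠ 0) (hb : b ≠ 0) : b = -a ∨ -b = -a := by
  revert a b; decide

/-- elimination of the new element -/
theorem Generic6.key_pair (G : Generic6 O A x) {O' : OMat (Option α)} (hE : IsExtension O O')
    {i j k l : Fin 6} (hc : ({i, j, k, l} : Finset (Fin 6)).card = 4)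
    {D1 D2 : Option α → SignType} (hD1 : D1 ∈ O'.circuits) (hD2 : D2 ∈ O'.circuits)
    (n1 : D1 none ≠ 0) (n2 : D2 none ≠ 0)
    (s1 : Function.support D1 ⊆ insert none (some '' (A ∪ {x i, x j})))
    (s2 : Function.support D2 ⊆ insert none (some '' (A ∪ {x k, x l})))
    (z1 : D1 (some (x i)) ≠ 0)
    {X : α → SignType} (hX : X ∈ O.circuits)
    (hXs : Function.support X ⊆ A ∪ x '' ({i, j, k, l} : Finset (Fin 6))) :
    X (x i) * X (x j) = D1 (some (x i)) * D1 (some (x j)) := by
  have hne : i ≠ k ∧ i ≠ l ∧ j ≠ k ∧ j ≠ l := by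
    clear hX hXs z1 s1 s2
    revert i j k l; decide
  have main : ∀ E : Option α → SignType, E ∈ O'.circuits →
      Function.support E ⊆ insert none (some '' (A ∪ {x k, x l})) → E none = -D1 none →
      X (x i) * X (x j) = D1 (some (x i)) * D1 (some (x j)) := by
    intro E hE' sE hEn
    have mem1 : ∀ e, D1 (some e) ≠ 0 → e ∈ A ∪ {x i, x j} := by
      intro e he
      have : some e ∈ insert (none : Option α) (some '' (A ∪ {x i, x j})) := s1 he
      simpa using this
    have mem2 : ∀ e, E (some e) ≠ 0 → e ∈ A ∪ {x k, x l} := by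
      intro e he
      have : some e ∈ insert (none : Option α) (some '' (A ∪ {x k, x l})) := sE he
      simpa using this
    have nm : ∀ m : Fin 6, m ≠ k → m ≠ l → E (some (x m)) = 0 := by
      intro m h1 h2
      by_contra h
      rcases mem2 _ h with h | h | h
      · exact G.2.1 m h
      · exact h1 (G.1 h)
      · exact h2 (G.1 h)
    have hneg : D1 ≠ -E := by
      intro h
      apply z1
      rw [h, Pi.neg_apply, nm i hne.1 hne.2.1]
      rfl
    obtain ⟨Z, hZ, hZn, hZf⟩ := O'.elim D1 hD1 E hE' hneg none n1 hEn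
    have hZe : Z = fun o : Option α => o.elim 0 (fun e => Z (some e)) := by
      funext o
      cases o with
      | none => exact hZn
      | some e => rfl
    have hZ0 : (fun e => Z (some e)) ∈ O.circuits := by
      rw [hE]; rw [← hZe]; exact hZ
    have hsub : Function.support (fun e => Z (some e)) ⊆
        A ∪ x '' ({i, j, k, l} : Finset (Fin 6)) := by
      intro e he
      have he' : Z (some e) ≠ 0 := he
      rcases hZf (some e) he' with h | h
      · rcases mem1 e (h ▸ he') with h | h | h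
        · exact Or.inl h
        · exact Or.inr ⟨i, by simp, h.symm⟩
        · exact Or.inr ⟨j, by simp, h.symm⟩
      · rcases mem2 e (h ▸ he') with h | h | h
        · exact Or.inl h
        · exact Or.inr ⟨k, by simp, h.symm⟩
        · exact Or.inr ⟨l, by simp, h.symm⟩
    have val : ∀ m ∈ ({i, j, k, l} : Finset (Fin 6)), m ≠ k → m ≠ l →
        Z (some (x m)) = D1 (some (x m)) := by
      intro m hm h1 h2
      have hz : Z (some (x m)) ≠ 0 := G.ne_zero hc hZ0 hsub hm
      rcases hZf (some (x m)) hz with h | h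
      · exact h
      · rw [nm m h1 h2] at h
        exact absurd h hz
    rw [← val i (by simp) hne.1 hne.2.1, ← val j (by simp) hne.2.2.1 hne.2.2.2]
    rcases G.unique hc hX hXs hZ0 hsub with h | h
    · rw [h]
    · rw [h]; simp only [Pi.neg_apply, neg_mul_neg]
  rcases sign_eq_or n1 n2 with h | h
  · exact main D2 hD2 s2 h
  · exact main (-D2) (O'.neg_mem D2 hD2) (by rw [support_neg_sign]; exact s2) (by simpa using h)

/-- the closure of a set in an extension contains the closure in `O` -/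
theorem closure_ext {O' : OMat (Option α)} (hE : IsExtension O O') (S : Set α) :
    some '' (O.toMatroid.closure S) ⊆ O'.toMatroid.closure (some '' S) := by
  rintro _ ⟨e, he, rfl⟩
  by_cases heS : e ∈ S
  · exact O'.toMatroid.subset_closure _ (by simp) ⟨e, heS, rfl⟩
  · rw [O.mem_closure_iff heS] at he
    obtain ⟨X, hX, hXe, hXs⟩ := he
    rw [O'.mem_closure_iff (by simpa using heS)]
    refine ⟨_, (hE X).1 hX, hXe, ?_⟩
    intro o ho
    rcases o with _ | f
    · exact absurd rfl ho
    · rcases hXs (show X f ≠ 0 from ho) with h | h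
      · exact Or.inl (by rw [h])
      · exact Or.inr ⟨f, h, rfl⟩

theorem Generic6.ncard_eq (G : Generic6 O A x) (s : Finset (Fin 6)) :
    (A ∪ x '' s).ncard = A.ncard + s.card := by
  rw [Set.ncard_union_eq _ (Set.toFinite _) (Set.toFinite _), Set.ncard_image_of_injective _ G.1,
    Set.ncard_coe_finset]
  rw [Set.disjoint_right]
  rintro _ ⟨i, -, rfl⟩
  exact G.2.1 i

theorem Generic6.eRk_closure (G : Generic6 O A x) {s : Finset (Fin 6)} (hs : s.card ≤ 3) :
    O.toMatroid.eRk (O.toMatroid.closure (A ∪ x '' s)) = ((A.ncard + s.card : ℕ) : ℕ∞) := by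
  rw [Matroid.eRk_closure_eq, (G.indep hs).eRk_eq_encard, ← G.ncard_eq,
    Set.Finite.cast_ncard_eq (Set.toFinite _)]

theorem Generic6.eRk_univ (G : Generic6 O A x) :
    O.toMatroid.eRk Set.univ = ((A.ncard + 3 : ℕ) : ℕ∞) := by
  have h1 := G.base (s := {0, 1, 2}) (by decide)
  have h2 := G.eRk_closure (s := {0, 1, 2}) (by decide)
  rw [h1.closure_eq] at h2
  rw [OMat.toMatroid_E] at h2
  rw [h2]
  rfl

omit [Finite α] in
theorem pair_eq (x : Fin 6 → α) (i j : Fin 6) :
    ({x i, x j} : Set α) = x '' ({i, j} : Finset (Fin 6)) := by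
  simp [Set.image_insert_eq]

theorem Generic6.eRk_plane (G : Generic6 O A x) {i j : Fin 6} (h : i ≠ j) :
    O.toMatroid.eRk (plane O A x i j) = ((A.ncard + 2 : ℕ) : ℕ∞) := by
  unfold plane
  rw [pair_eq, G.eRk_closure (by rw [Finset.card_pair h]; omega), Finset.card_pair h]

theorem Generic6.exists_D (G : Generic6 O A x) {O' : OMat (Option α)}
    (hO' : Corresponds O O' (planesCut O A x)) {i j : Fin 6}
    (hH : plane O A x i j ∈ planesCut O A x) :
    ∃ D ∈ O'.circuits, D none ≠ 0 ∧
      Function.support D ⊆ insert none (some '' (A ∪ {x i, x j})) ∧ D (some (x i)) ≠ 0 := by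
  have h1 := ((hO'.2 _).1 hH).2
  have h2 : none ∈ O'.toMatroid.closure (some '' (A ∪ {x i, x j})) := by
    have h3 := O'.toMatroid.closure_subset_closure (closure_ext hO'.1 (A ∪ {x i, x j})) h1
    rwa [Matroid.closure_closure] at h3
  rw [O'.mem_closure_iff (by simp)] at h2
  obtain ⟨D, hD, hDn, hDs⟩ := h2
  refine ⟨D, hD, hDn, hDs, ?_⟩
  intro hz
  have h4 : none ∈ O'.toMatroid.closure (some '' (A ∪ x '' ({j} : Finset (Fin 6)))) := by
    rw [O'.mem_closure_iff (by simp)]
    refine ⟨D, hD, hDn, ?_⟩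
    intro o ho
    rcases hDs ho with h | ⟨e, h | h | h, h'⟩
    · exact Or.inl h
    · exact Or.inr ⟨e, Or.inl h, h'⟩
    · exfalso
      rw [← h', h] at ho
      exact ho hz
    · exact Or.inr ⟨e, Or.inr ⟨j, by simp, h.symm⟩, h'⟩
  have h5 : O.toMatroid.closure (A ∪ x '' ({j} : Finset (Fin 6))) ∈ planesCut O A x := by
    rw [hO'.2]
    refine ⟨O.toMatroid.isFlat_closure _, ?_⟩
    exact O'.toMatroid.closure_subset_closure
      (Set.image_mono (O.toMatroid.subset_closure _ (by simp))) h4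
  have h6 := G.eRk_closure (s := {j}) (by simp)
  rw [Finset.card_singleton] at h6
  rcases h5 with h | h | h | h
  · rw [h, G.eRk_plane (by decide)] at h6
    have : A.ncard + 2 = A.ncard + 1 := by exact_mod_cast h6
    omega
  · rw [h, G.eRk_plane (by decide)] at h6
    have : A.ncard + 2 = A.ncard + 1 := by exact_mod_cast h6
    omega
  · rw [h, G.eRk_plane (by decide)] at h6
    have : A.ncard + 2 = A.ncard + 1 := by exact_mod_cast h6
    omega
  · rw [h, G.eRk_univ] at h6
    have : A.ncard + 3 = A.ncard + 1 := by exact_mod_cast h6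
    omega

/-- an extension corresponding to `planesCut O A x` forces a relation between two circuits -/
theorem Generic6.key_real (G : Generic6 O A x) (hR : Realized O (planesCut O A x))
    {X Y : α → SignType} (hX : X ∈ O.circuits) (hY : Y ∈ O.circuits)
    (hXs : Function.support X ⊆ A ∪ x '' ({0, 1, 2, 3} : Finset (Fin 6)))
    (hYs : Function.support Y ⊆ A ∪ x '' ({0, 1, 4, 5} : Finset (Fin 6))) :
    X (x 0) * X (x 1) = Y (x 0) * Y (x 1) := by
  obtain ⟨O', hO'⟩ := hR
  obtain ⟨D1, hD1, n1, s1, z1⟩ := G.exists_D hO' (i := 0) (j := 1) (Or.inl rfl)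
  obtain ⟨D2, hD2, n2, s2, -⟩ := G.exists_D hO' (i := 2) (j := 3)
    (Or.inr (Or.inl rfl))
  obtain ⟨D3, hD3, n3, s3, -⟩ := G.exists_D hO' (i := 4) (j := 5)
    (Or.inr (Or.inr (Or.inl rfl)))
  rw [G.key_pair hO'.1 (by decide) hD1 hD2 n1 n2 s1 s2 z1 hX hXs,
    G.key_pair hO'.1 (by decide) hD1 hD3 n1 n3 s1 s3 z1 hY hYs]

theorem sign_id {a b c d e : SignType} (ha : a ≠ 0) (hb : b ≠ 0) (hc : c ≠ 0) (hd : d = -a)
    (he : e = b * c) : (a * b) * (d * c) * e = -1 := by
  subst hd he
  revert a b c; decide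

theorem Generic6.parity (G : Generic6 O A x) {X1 X2 X3 : α → SignType} (h1 : X1 ∈ O.circuits)
    (h2 : X2 ∈ O.circuits) (h3 : X3 ∈ O.circuits)
    (s1 : Function.support X1 ⊆ A ∪ x '' ({0, 1, 4, 5} : Finset (Fin 6)))
    (s2 : Function.support X2 ⊆ A ∪ x '' ({0, 2, 4, 5} : Finset (Fin 6)))
    (s3 : Function.support X3 ⊆ A ∪ x '' ({1, 2, 4, 5} : Finset (Fin 6))) :
    (X1 (x 0) * X1 (x 1)) * (X2 (x 0) * X2 (x 2)) * (X3 (x 1) * X3 (x 2)) = -1 := by
  have zero : ∀ (Y : α → SignType) (s : Finset (Fin 6)), Function.support Y ⊆ A ∪ x '' s →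
      ∀ m, m ∉ s → Y (x m) = 0 := by
    intro Y s hs m hm
    by_contra h
    rcases hs h with h' | ⟨m', hm', h'⟩
    · exact G.2.1 m h'
    · rw [← G.1 h'] at hm
      exact hm hm'
  have main : ∀ Y : α → SignType, Y ∈ O.circuits →
      Function.support Y ⊆ A ∪ x '' ({0, 2, 4, 5} : Finset (Fin 6)) →
      Y (x 0) = - X1 (x 0) →
      (X1 (x 0) * X1 (x 1)) * (Y (x 0) * Y (x 2)) * (X3 (x 1) * X3 (x 2)) = -1 := by
    intro Y hY sY hYa
    have z10 := G.ne_zero (by decide) h1 s1 (i := 0) (by decide)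
    have z11 := G.ne_zero (by decide) h1 s1 (i := 1) (by decide)
    have zY2 := G.ne_zero (by decide) hY sY (i := 2) (by decide)
    have hneg : X1 ≠ -Y := by
      intro h
      apply z11
      rw [h, Pi.neg_apply, zero Y _ sY 1 (by decide)]
      rfl
    obtain ⟨Z, hZ, hZa, hZf⟩ := O.elim X1 h1 Y hY hneg (x 0) z10 hYa
    have hsub : Function.support Z ⊆ A ∪ x '' ({1, 2, 4, 5} : Finset (Fin 6)) := by
      intro e he
      have he' : Z e ≠ 0 := he
      have aux : ∀ s : Finset (Fin 6), s ⊆ {0, 1, 2, 4, 5} → e ∈ A ∪ x '' s →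
          e ∈ A ∪ x '' ({1, 2, 4, 5} : Finset (Fin 6)) := by
        rintro s hs (h | ⟨m, hm, rfl⟩)
        · exact Or.inl h
        · refine Or.inr ⟨m, ?_, rfl⟩
          have hm0 : m ≠ 0 := by
            rintro rfl
            exact he' hZa
          have hm' : m ∈ ({0, 1, 2, 4, 5} : Finset (Fin 6)) := hs hm
          have : m ∈ ({1, 2, 4, 5} : Finset (Fin 6)) := by
            clear he he' hm
            revert m; decide
          exact_mod_cast this
      rcases hZf e he' with h | h
      · exact aux _ (by decide) (s1 (show X1 e ≠ 0 from h ▸ he'))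
      · exact aux _ (by decide) (sY (show Y e ≠ 0 from h ▸ he'))
    have zZ1 := G.ne_zero (by decide) hZ hsub (i := 1) (by decide)
    have zZ2 := G.ne_zero (by decide) hZ hsub (i := 2) (by decide)
    have vb : Z (x 1) = X1 (x 1) := by
      rcases hZf _ zZ1 with h | h
      · exact h
      · rw [zero Y _ sY 1 (by decide)] at h
        exact absurd h zZ1
    have vc : Z (x 2) = Y (x 2) := by
      rcases hZf _ zZ2 with h | h
      · rw [zero X1 _ s1 2 (by decide)] at h
        exact absurd h zZ2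
      · exact h
    have h6 : X3 (x 1) * X3 (x 2) = X1 (x 1) * Y (x 2) := by
      rw [← vb, ← vc]
      rcases G.unique (by decide) h3 s3 hZ hsub with h | h
      · rw [h]
      · rw [h]; simp only [Pi.neg_apply, neg_mul_neg]
    exact sign_id z10 z11 zY2 hYa h6
  rcases sign_eq_or (G.ne_zero (by decide) h1 s1 (i := 0) (by decide))
    (G.ne_zero (by decide) h2 s2 (i := 0) (by decide)) with h | h
  · exact main X2 h2 s2 h
  · have := main (-X2) (O.neg_mem X2 h2) (by rw [support_neg_sign]; exact s2) (by simpa using h)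
    simpa only [Pi.neg_apply, neg_mul_neg] using this

theorem sign_contra {a b c p q s : SignType} (ha : a ≠ 0) (hb : b ≠ 0) (hc : c ≠ 0)
    (h1 : a * b = p) (h2 : a * c = q) (h3 : c * b = s) (h : p * q * s = -1) : False := by
  subst h1 h2 h3
  revert a b c; decide

theorem Generic6.perm (G : Generic6 O A x) (σ : Equiv.Perm (Fin 6)) : Generic6 O A (x ∘ σ) :=
  ⟨G.1.comp σ.injective, fun _ => G.2.1 _, fun _ _ _ h1 h2 h3 =>
    G.2.2 _ _ _ (σ.injective.ne h1) (σ.injective.ne h2) (σ.injective.ne h3)⟩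

/-- for six elements in general position over `A`, one of three cuts is not realized -/
theorem Generic6.not_all (G : Generic6 O A x) :
    ¬ Realized O (planesCut O A x) ∨ ¬ Realized O (planesCut O A (x ∘ Equiv.swap 1 2)) ∨
      ¬ Realized O (planesCut O A (x ∘ Equiv.swap 0 2)) := by
  by_contra hcon
  push Not at hcon
  obtain ⟨R1, R2, R3⟩ := hcon
  obtain ⟨X, hX, hXs⟩ := G.exists_circ (s := {0, 1, 2, 3}) (by decide)
  obtain ⟨Y1, hY1, s1⟩ := G.exists_circ (s := {0, 1, 4, 5}) (by decide)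
  obtain ⟨Y2, hY2, s2⟩ := G.exists_circ (s := {0, 2, 4, 5}) (by decide)
  obtain ⟨Y3, hY3, s3⟩ := G.exists_circ (s := {1, 2, 4, 5}) (by decide)
  have par := G.parity hY1 hY2 hY3 s1 s2 s3
  have im : ∀ (σ : Equiv.Perm (Fin 6)) (s t : Finset (Fin 6)), s.map σ.toEmbedding = t →
      (x ∘ σ) '' (s : Set (Fin 6)) = x '' (t : Set (Fin 6)) := by
    rintro σ s t rfl
    rw [Set.image_comp]
    simp
  have e1 := G.key_real R1 hX hY1 hXs s1
  have e2 := (G.perm (Equiv.swap 1 2)).key_real R2 hX hY2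
    (by rw [im _ _ {0, 1, 2, 3} (by decide)]; exact hXs)
    (by rw [im _ _ {0, 2, 4, 5} (by decide)]; exact s2)
  have e3 := (G.perm (Equiv.swap 0 2)).key_real R3 hX hY3
    (by rw [im _ _ {0, 1, 2, 3} (by decide)]; exact hXs)
    (by rw [im _ _ {1, 2, 4, 5} (by decide)]; exact s3)
  have v1 : (x ∘ Equiv.swap (1 : Fin 6) 2) 0 = x 0 := rfl
  have v2 : (x ∘ Equiv.swap (1 : Fin 6) 2) 1 = x 2 := rfl
  have w1 : (x ∘ Equiv.swap (0 : Fin 6) 2) 0 = x 2 := rfl
  have w2 : (x ∘ Equiv.swap (0 : Fin 6) 2) 1 = x 1 := rfl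
  rw [v1, v2] at e2
  rw [w1, w2] at e3
  exact sign_contra (a := X (x 0)) (b := X (x 1)) (c := X (x 2))
    (G.ne_zero (by decide) hX hXs (by decide)) (G.ne_zero (by decide) hX hXs (by decide))
    (G.ne_zero (by decide) hX hXs (by decide)) e1 e2 (e3.trans (mul_comm _ _)) par

end Pool.Agent.H29.OM
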