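import Mathlib
import Pool.Agent.H29.OM.Defs

set_option autoImplicit false

open Set Pool.Agent.Q288.OM

namespace Pool.Agent.H29.OM

variable {α : Type} [Finite α] {O : OMat α} {r : ℕ}

theorem IsUniform.indep_iff (hU : IsUniform O r) {I : Set α} : O.Indep I ↔ I.ncard ≤ r := by
  rw [← O.toMatroid_indep]; exact hU.2 I

/-- every signed circuit has `r + 1` elements -/
theorem IsUniform.card_circuit (hU : IsUniform O r) {X : α → SignType} (hX : X ∈ O.circuits) :
    (Function.support X).ncard = r + 1 := by
  have h1 : ¬ (Function.support X).ncard ≤ r := by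
    rw [← hU.indep_iff]
    exact fun h => h X hX le_rfl
  by_contra hne
  have h2 : r + 2 ≤ (Function.support X).ncard := by omega
  obtain ⟨e, he⟩ : (Function.support X).Nonempty := by
    rw [← Set.ncard_pos (Set.toFinite _)]; omega
  have h3 : ((Function.support X) \ {e}).ncard = (Function.support X).ncard - 1 :=
    Set.ncard_sdiff_singleton_of_mem he
  have h4 : ¬ O.Indep ((Function.support X) \ {e}) := by
    rw [hU.indep_iff]; omega
  unfold OMat.Indep at h4
  push Not at h4
  obtain ⟨Y, hY, hYs⟩ := h4
  have h5 : Function.support Y = Function.support X := by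
    rcases O.incomp Y hY X hX (hYs.trans Set.sdiff_subset) with h | h
    · rw [h]
    · rw [h, support_neg_sign]
  have h6 : e ∈ Function.support Y := by rw [h5]; exact he
  exact (hYs h6).2 rfl

/-- every `(r + 1)`-set supports a signed circuit -/
theorem IsUniform.exists_circuit (hU : IsUniform O r) {S : Set α} (hS : S.ncard = r + 1) :
    ∃ X ∈ O.circuits, Function.support X = S := by
  have h4 : ¬ O.Indep S := by
    rw [hU.indep_iff]; omega
  unfold OMat.Indep at h4
  push Not at h4
  obtain ⟨Y, hY, hYs⟩ := h4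
  refine ⟨Y, hY, Set.eq_of_subset_of_ncard_le hYs ?_ (Set.toFinite _)⟩
  rw [hU.card_circuit hY, hS]

theorem IsUniform.support_eq (hU : IsUniform O r) {S : Set α} (hS : S.ncard = r + 1)
    {X : α → SignType} (hX : X ∈ O.circuits) (h : Function.support X ⊆ S) :
    Function.support X = S := by
  refine Set.eq_of_subset_of_ncard_le h ?_ (Set.toFinite _)
  rw [hU.card_circuit hX, hS]

/-- small sets are flats -/
theorem IsUniform.flat_of_lt (hU : IsUniform O r) {F : Set α} (hF : F.ncard < r) :
    O.toMatroid.IsFlat F := by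
  rw [Matroid.isFlat_iff_closure_eq]
  refine subset_antisymm ?_ (O.toMatroid.subset_closure F (by simp))
  intro e he
  by_contra hne
  obtain ⟨X, hX, hXe, hXs⟩ := (O.mem_closure_iff hne).1 he
  have h1 := hU.card_circuit hX
  have h2 := Set.ncard_le_ncard hXs (Set.toFinite _)
  have h3 := Set.ncard_insert_le e F
  omega

theorem flat_univ (O : OMat α) : O.toMatroid.IsFlat Set.univ := by
  rw [Matroid.isFlat_iff_closure_eq]
  refine subset_antisymm (Set.subset_univ _) (O.toMatroid.subset_closure _ (by simp))

/-- sets with at least `r` elements span -/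
theorem IsUniform.flat_of_ge (hU : IsUniform O r) {F : Set α} (hF : r ≤ F.ncard)
    (h : O.toMatroid.IsFlat F) : F = Set.univ := by
  by_contra hne
  obtain ⟨e, he⟩ := (Set.ne_univ_iff_exists_notMem F).1 hne
  obtain ⟨B, hBF, hB⟩ := Set.exists_subset_card_eq hF
  have heB : e ∉ B := fun h => he (hBF h)
  have h1 : (insert e B).ncard = r + 1 := by
    rw [Set.ncard_insert_of_notMem heB (Set.toFinite _), hB]
  obtain ⟨X, hX, hXs⟩ := hU.exists_circuit h1
  apply he
  rw [← h.closure]
  rw [O.mem_closure_iff he]
  refine ⟨X, hX, ?_, ?_⟩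
  · have : e ∈ Function.support X := by rw [hXs]; exact Set.mem_insert _ _
    exact this
  · rw [hXs]; exact Set.insert_subset_insert hBF

theorem IsUniform.eRk_le (hU : IsUniform O r) (F : Set α) : O.toMatroid.eRk F ≤ r := by
  rw [Matroid.eRk_le_iff]
  intro I hI hind
  have := (hU.2 I).1 hind
  rw [← Set.Finite.cast_ncard_eq (Set.toFinite I)]
  exact_mod_cast this

theorem IsUniform.eRk_of_le (hU : IsUniform O r) {F : Set α} (hF : F.ncard ≤ r) :
    O.toMatroid.eRk F = F.ncard := by
  rw [((hU.2 F).2 hF).eRk_eq_encard, Set.Finite.cast_ncard_eq (Set.toFinite F)]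

theorem flat_inter (O : OMat α) {F G : Set α} (hF : O.toMatroid.IsFlat F)
    (hG : O.toMatroid.IsFlat G) : O.toMatroid.IsFlat (F ∩ G) := by
  rw [Matroid.isFlat_iff_closure_eq]
  refine subset_antisymm ?_ (O.toMatroid.subset_closure _ (by simp))
  intro e he
  refine ⟨?_, ?_⟩
  · rw [← hF.closure]
    exact O.toMatroid.closure_subset_closure Set.inter_subset_left he
  · rw [← hG.closure]
    exact O.toMatroid.closure_subset_closure Set.inter_subset_right he

theorem modular_throughCut (O : OMat α) (a : α) : IsModularCut O.toMatroid (throughCut O a) where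
  flat := fun _ hF => hF.1
  up := fun _ hF _ hG hFG => ⟨hG, hFG hF.2⟩
  inter := fun _ hF _ hG _ => ⟨flat_inter O hF.1 hG.1, hF.2, hG.2⟩

/-- `A ∪ {a, b}` -/
theorem ncard_pair_union {A : Set α} {a b : α} (hab : a ≠ b) (ha : a ∉ A) (hb : b ∉ A) :
    (A ∪ {a, b}).ncard = A.ncard + 2 := by
  rw [Set.ncard_union_eq _ (Set.toFinite _) (Set.toFinite _), Set.ncard_pair hab]
  rw [Set.disjoint_right]
  rintro e (rfl | rfl)
  · exact ha
  · exact hb

end Pool.Agent.H29.OM
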