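import Mathlib
import Pool.Agent.H29.OM.Gen
import Pool.Agent.H29.OM.Uni
import Pool.Agent.H29.OM.Alt

/-!
# The cuts are modular; the uniform case
-/

set_option autoImplicit false

open Set Pool.Agent.Q288.OM

namespace Pool.Agent.H29.OM

variable {α : Type} [Finite α] {O : OMat α} {A : Set α} {x : Fin 6 → α} {r : ℕ}

theorem Generic6.eRank_eq (G : Generic6 O A x) : O.toMatroid.eRank = ((A.ncard + 3 : ℕ) : ℕ∞) := by
  rw [← G.eRk_univ, ← Matroid.eRk_ground, OMat.toMatroid_E]

theorem Generic6.up (G : Generic6 O A x) {i j : Fin 6} (hij : i ≠ j) {F : Set α}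
    (hF : O.toMatroid.IsFlat F) (hs : plane O A x i j ⊆ F) :
    F = plane O A x i j ∨ F = Set.univ := by
  by_cases h : F ⊆ plane O A x i j
  · exact Or.inl (subset_antisymm h hs)
  · right
    obtain ⟨e, heF, he⟩ := Set.not_subset.1 h
    have hI : O.toMatroid.Indep (A ∪ {x i, x j}) := by
      rw [pair_eq]
      exact G.indep (by rw [Finset.card_pair hij]; omega)
    unfold plane at he
    rw [hI.notMem_closure_iff (by simp)] at he
    have h1 : (insert e (A ∪ {x i, x j})).ncard = A.ncard + 3 := by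
      rw [Set.ncard_insert_of_notMem he.2 (Set.toFinite _), pair_eq, G.ncard_eq,
        Finset.card_pair hij]
    have h2 : O.toMatroid.IsBase (insert e (A ∪ {x i, x j})) := by
      apply he.1.isBase_of_eRk_ge (Set.toFinite _)
      rw [he.1.eRk_eq_encard, ← Set.Finite.cast_ncard_eq (Set.toFinite _), h1, G.eRank_eq]
    rw [← hF.closure]
    apply Set.univ_subset_iff.1
    rw [← OMat.toMatroid_E O, ← h2.closure_eq]
    apply O.toMatroid.closure_subset_closure
    apply Set.insert_subset heF
    exact (O.toMatroid.subset_closure (A ∪ {x i, x j}) (by simp)).trans hs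

theorem Generic6.not_modular (G : Generic6 O A x) (S : Separated O A x) {i j k l : Fin 6}
    (hc : ({i, j, k, l} : Finset (Fin 6)).card = 4) :
    O.toMatroid.eRk (plane O A x i j) + O.toMatroid.eRk (plane O A x k l) ≠
      O.toMatroid.eRk (plane O A x i j ∪ plane O A x k l) +
      O.toMatroid.eRk (plane O A x i j ∩ plane O A x k l) := by
  have hne : i ≠ j ∧ i ≠ k ∧ i ≠ l ∧ j ≠ k ∧ j ≠ l ∧ k ≠ l := by
    revert i j k l; decide
  obtain ⟨h1, h2, h3, h4, h5, h6⟩ := hne
  intro h
  rw [G.eRk_plane h1, G.eRk_plane h6] at h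
  have e1 : O.toMatroid.eRk (plane O A x i j ∩ plane O A x k l) ≤ ((A.ncard : ℕ) : ℕ∞) := by
    refine (O.toMatroid.eRk_mono (S i j k l h1 h2 h3 h4 h5 h6)).trans ?_
    have := G.eRk_closure (s := ∅) (by simp)
    simp only [Finset.coe_empty, Set.image_empty, Set.union_empty, Finset.card_empty,
      Nat.add_zero] at this
    rw [this]
  have e2 : O.toMatroid.eRk (plane O A x i j ∪ plane O A x k l) ≤ ((A.ncard + 3 : ℕ) : ℕ∞) := by
    rw [← G.eRank_eq]; exact O.toMatroid.eRk_le_eRank _
  have e3 : (((A.ncard + 2 : ℕ) : ℕ∞) + ((A.ncard + 2 : ℕ) : ℕ∞)) ≤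
      ((A.ncard + 3 : ℕ) : ℕ∞) + ((A.ncard : ℕ) : ℕ∞) := by
    rw [h]; exact add_le_add e2 e1
  have e4 : (A.ncard + 2) + (A.ncard + 2) ≤ (A.ncard + 3) + A.ncard := by exact_mod_cast e3
  omega

theorem Generic6.modular (G : Generic6 O A x) (S : Separated O A x) :
    IsModularCut O.toMatroid (planesCut O A x) := by
  refine ⟨?_, ?_, ?_⟩
  · rintro F (rfl | rfl | rfl | rfl)
    · exact O.toMatroid.isFlat_closure _
    · exact O.toMatroid.isFlat_closure _
    · exact O.toMatroid.isFlat_closure _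
    · exact flat_univ O
  · rintro F (rfl | rfl | rfl | rfl) H hH hs
    · rcases G.up (by decide) hH hs with h | h
      · exact Or.inl h
      · exact Or.inr (Or.inr (Or.inr h))
    · rcases G.up (by decide) hH hs with h | h
      · exact Or.inr (Or.inl h)
      · exact Or.inr (Or.inr (Or.inr h))
    · rcases G.up (by decide) hH hs with h | h
      · exact Or.inr (Or.inr (Or.inl h))
      · exact Or.inr (Or.inr (Or.inr h))
    · exact Or.inr (Or.inr (Or.inr (Set.univ_subset_iff.1 hs)))
  · rintro F (rfl | rfl | rfl | rfl) H (rfl | rfl | rfl | rfl) h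
    · rw [Set.inter_self]; exact Or.inl rfl
    · exact absurd h (G.not_modular S (by decide))
    · exact absurd h (G.not_modular S (by decide))
    · rw [Set.inter_univ]; exact Or.inl rfl
    · exact absurd h (G.not_modular S (by decide))
    · rw [Set.inter_self]; exact Or.inr (Or.inl rfl)
    · exact absurd h (G.not_modular S (by decide))
    · rw [Set.inter_univ]; exact Or.inr (Or.inl rfl)
    · exact absurd h (G.not_modular S (by decide))
    · exact absurd h (G.not_modular S (by decide))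
    · rw [Set.inter_self]; exact Or.inr (Or.inr (Or.inl rfl))
    · rw [Set.inter_univ]; exact Or.inr (Or.inr (Or.inl rfl))
    · rw [Set.univ_inter]; exact Or.inl rfl
    · rw [Set.univ_inter]; exact Or.inr (Or.inl rfl)
    · rw [Set.univ_inter]; exact Or.inr (Or.inr (Or.inl rfl))
    · rw [Set.univ_inter]; exact Or.inr (Or.inr (Or.inr rfl))

theorem planesCut_subset {a : α} (ha : a ∈ A) : planesCut O A x ⊆ throughCut O a := by
  have h : ∀ i j, a ∈ plane O A x i j := fun i j =>
    O.toMatroid.subset_closure _ (by simp) (Or.inl ha)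
  rintro F (rfl | rfl | rfl | rfl)
  · exact ⟨O.toMatroid.isFlat_closure _, h _ _⟩
  · exact ⟨O.toMatroid.isFlat_closure _, h _ _⟩
  · exact ⟨O.toMatroid.isFlat_closure _, h _ _⟩
  · exact ⟨flat_univ O, Set.mem_univ _⟩

/-- the cut of the flats through a nonloop is realized by a parallel element -/
theorem realized_of_nonloop {a : α} (ha : O.toMatroid.Indep {a}) : Realized O (throughCut O a) := by
  apply realized_throughCut
  intro X hX
  rw [OMat.toMatroid_indep] at ha
  by_contra hcon
  push Not at hcon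
  apply ha X hX
  intro e he
  by_contra h2
  exact he (hcon e h2)

theorem Separated.perm (S : Separated O A x) (σ : Equiv.Perm (Fin 6)) :
    Separated O A (x ∘ σ) := fun _ _ _ _ h1 h2 h3 h4 h5 h6 =>
  S _ _ _ _ (σ.injective.ne h1) (σ.injective.ne h2) (σ.injective.ne h3) (σ.injective.ne h4)
    (σ.injective.ne h5) (σ.injective.ne h6)

theorem Generic6.fails (G : Generic6 O A x) (S : Separated O A x) {a : α} (ha : a ∈ A) :
    ∃ 𝓜' ⊆ throughCut O a, IsModularCut O.toMatroid 𝓜' ∧ ¬ Realized O 𝓜' := by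
  rcases G.not_all with h | h | h
  · exact ⟨_, planesCut_subset ha, G.modular S, h⟩
  · exact ⟨_, planesCut_subset ha, (G.perm _).modular (S.perm _), h⟩
  · exact ⟨_, planesCut_subset ha, (G.perm _).modular (S.perm _), h⟩

theorem Generic6.nonloop (G : Generic6 O A x) {a : α} (ha : a ∈ A) : O.toMatroid.Indep {a} := by
  have h := G.indep (s := ∅) (by simp)
  refine h.subset ?_
  rintro _ rfl
  exact Or.inl ha

theorem Generic6.failsAt (G : Generic6 O A x) (S : Separated O A x) {a : α} (ha : a ∈ A) :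
    FailsAt O a :=
  ⟨modular_throughCut O a, realized_of_nonloop (G.nonloop ha), G.fails S ha⟩

theorem IsUniform.generic (hU : IsUniform O r) (hr : 3 ≤ r) (hA : A.ncard = r - 3)
    (hx : Function.Injective x) (hxA : ∀ i, x i ∉ A) : Generic6 O A x := by
  refine ⟨hx, hxA, ?_⟩
  intro i j k h1 h2 h3
  have hc : (A ∪ {x i, x j, x k}).ncard = r := by
    have h4 : (({x i, x j, x k} : Set α)).ncard = 3 := by
      rw [Set.ncard_eq_three]
      exact ⟨_, _, _, hx.ne h1, hx.ne h2, hx.ne h3, rfl⟩
    rw [Set.ncard_union_eq _ (Set.toFinite _) (Set.toFinite _), h4, hA]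
    · omega
    · rw [Set.disjoint_right]
      rintro e (rfl | rfl | rfl)
      · exact hxA _
      · exact hxA _
      · exact hxA _
  have hI : O.toMatroid.Indep (A ∪ {x i, x j, x k}) := (hU.2 _).2 hc.le
  apply hI.isBase_of_eRk_ge (Set.toFinite _)
  rw [hI.eRk_eq_encard, ← Set.Finite.cast_ncard_eq (Set.toFinite _), hc, ← Matroid.eRk_ground]
  exact hU.eRk_le _

theorem IsUniform.plane_eq (hU : IsUniform O r) (hr : 3 ≤ r) (hA : A.ncard = r - 3)
    (hx : Function.Injective x) (hxA : ∀ i, x i ∉ A) {i j : Fin 6} (hij : i ≠ j) :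
    plane O A x i j = A ∪ {x i, x j} := by
  apply (hU.flat_of_lt _).closure
  rw [ncard_pair_union (hx.ne hij) (hxA i) (hxA j), hA]
  omega

theorem IsUniform.separated (hU : IsUniform O r) (hr : 3 ≤ r) (hA : A.ncard = r - 3)
    (hx : Function.Injective x) (hxA : ∀ i, x i ∉ A) : Separated O A x := by
  intro i j k l h1 h2 h3 h4 h5 h6
  rw [hU.plane_eq hr hA hx hxA h1, hU.plane_eq hr hA hx hxA h6]
  rintro e ⟨h | h, h' | h'⟩
  · exact O.toMatroid.subset_closure _ (by simp) h
  · exact O.toMatroid.subset_closure _ (by simp) h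
  · exact O.toMatroid.subset_closure _ (by simp) h'
  · exfalso
    rcases h with rfl | rfl <;> rcases h' with h' | h'
    · exact h2 (hx h')
    · exact h3 (hx h')
    · exact h4 (hx h')
    · exact h5 (hx h')

theorem exists_A (hr : 4 ≤ r) (hn : r + 3 ≤ Nat.card α) (a : α) :
    ∃ (A : Set α) (x : Fin 6 → α), a ∈ A ∧ A.ncard = r - 3 ∧ Function.Injective x ∧
      ∀ i, x i ∉ A := by
  classical
  obtain ⟨A, haA, -, hA⟩ := Set.exists_subsuperset_card_eq (s := ({a} : Set α)) (t := Set.univ)
    (Set.subset_univ _) (n := r - 3) (by rw [Set.ncard_singleton]; omega)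
    (by rw [Set.ncard_univ]; omega)
  have h1 : 6 ≤ (Aᶜ).ncard := by
    have := Set.ncard_add_ncard_compl A
    omega
  have h2 : Nat.card (Fin 6) ≤ Nat.card (Aᶜ : Set α) := by
    rw [Nat.card_eq_fintype_card, Fintype.card_fin]
    exact h1
  have := Fintype.ofFinite (Aᶜ : Set α)
  rw [Nat.card_eq_fintype_card, Nat.card_eq_fintype_card] at h2
  obtain ⟨f⟩ := Function.Embedding.nonempty_of_card_le h2
  refine ⟨A, fun i => (f i : α), haA rfl, hA, ?_, fun i => (f i).2⟩
  intro i j hij
  exact f.injective (Subtype.ext hij)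

theorem uniform_fails (hU : IsUniform O r) (hr : 4 ≤ r) (hn : r + 3 ≤ Nat.card α) (a : α) :
    FailsAt O a := by
  obtain ⟨A, x, ha, hA, hx, hxA⟩ := exists_A hr hn a
  have G := hU.generic (by omega) hA hx hxA
  exact ⟨modular_throughCut O a, realized_of_nonloop (G.nonloop ha),
    G.fails (hU.separated (by omega) hA hx hxA) ha⟩

theorem q1_false : ¬ (∀ (α : Type) [Finite α] (O : OMat α) (𝓜 𝓜' : Set (Set α)),
      IsModularCut O.toMatroid 𝓜 → Realized O 𝓜 → IsModularCut O.toMatroid 𝓜' → 𝓜' ⊆ 𝓜 →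
      Realized O 𝓜') := by
  intro h
  obtain ⟨O, hU⟩ := exists_uniform 4 7 (by norm_num)
  obtain ⟨h4, h5, 𝓜', h1, h2, h3⟩ := uniform_fails hU le_rfl (by simp) (0 : Fin 7)
  exact h3 (h (Fin 7) O _ _ h4 h5 h2 h1)

end Pool.Agent.H29.OM
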