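import Mathlib
import Pool.Agent.H29.OM.Par
import Pool.Agent.H29.OM.Uni

/-!
# The lexicographic extension `[a⁺, b⁺]` of a uniform oriented matroid
-/

set_option autoImplicit false

open Set Pool.Agent.Q288.OM

namespace Pool.Agent.H29.OM

open Classical in
/-- `X` with `b` exchanged for `none` and the sign of `a` changed to `-X b` -/
noncomputable def lex3 {α : Type} (a b : α) (X : α → SignType) : Option α → SignType
  | none => X b
  | some e => if e = a then -X b else if e = b then 0 else X e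

open Classical in
/-- the signed circuit `{a, b, none}` with signs `s`, `s`, `-s` -/
noncomputable def pcirc {α : Type} (a b : α) (s : SignType) : Option α → SignType
  | none => -s
  | some e => if e = a ∨ e = b then s else 0

variable {α : Type} {a b : α}

@[simp] theorem lex3_none (X : α → SignType) : lex3 a b X none = X b := rfl
@[simp] theorem lex3_a (X : α → SignType) : lex3 a b X (some a) = -X b := by simp [lex3]
theorem lex3_b (hab : a ≠ b) (X : α → SignType) : lex3 a b X (some b) = 0 := by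
  simp [lex3, hab.symm]
theorem lex3_ne {e : α} (ha : e ≠ a) (hb : e ≠ b) (X : α → SignType) :
    lex3 a b X (some e) = X e := by simp [lex3, ha, hb]
@[simp] theorem pcirc_none (s : SignType) : pcirc a b s none = -s := rfl
@[simp] theorem pcirc_a (s : SignType) : pcirc a b s (some a) = s := by simp [pcirc]
@[simp] theorem pcirc_b (s : SignType) : pcirc a b s (some b) = s := by simp [pcirc]
theorem pcirc_ne {e : α} (ha : e ≠ a) (hb : e ≠ b) (s : SignType) :
    pcirc a b s (some e) = 0 := by simp [pcirc, ha, hb]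

theorem neg_lex3 (X : α → SignType) : -lex3 a b X = lex3 a b (-X) := by
  funext o
  rcases o with _ | e
  · simp
  · by_cases h : e = a
    · subst h; simp
    · by_cases h' : e = b
      · subst h'
        rw [Pi.neg_apply, lex3_b (Ne.symm h), lex3_b (Ne.symm h)]; rfl
      · rw [Pi.neg_apply, lex3_ne h h', lex3_ne h h']; rfl

theorem neg_pcirc (s : SignType) : -pcirc a b s = pcirc a b (-s) := by
  funext o
  rcases o with _ | e
  · simp
  · by_cases h : e = a
    · subst h; simp
    · by_cases h' : e = b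
      · subst h'; simp
      · rw [Pi.neg_apply, pcirc_ne h h', pcirc_ne h h']; rfl

/-- the circuits of the lexicographic extension -/
def Lx (O : OMat α) (a b : α) : Set (Option α → SignType) :=
  {Y | (∃ X ∈ O.circuits, Y = keep X) ∨ (∃ X ∈ O.circuits, X a ≠ 0 ∧ Y = repl a X) ∨
    (∃ X ∈ O.circuits, X a ≠ 0 ∧ X b ≠ 0 ∧ Y = lex3 a b X) ∨
    ∃ s : SignType, s ≠ 0 ∧ Y = pcirc a b s}

/-- `W` conforms to `Y` or `Y'` everywhere -/
def Conf (W Y Y' : Option α → SignType) : Prop := ∀ o, W o ≠ 0 → W o = Y o ∨ W o = Y' o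

theorem conf_keep {Z : α → SignType} {Y Y' : Option α → SignType}
    (ha : Z a ≠ 0 → Z a = Y (some a) ∨ Z a = Y' (some a))
    (hb : Z b ≠ 0 → Z b = Y (some b) ∨ Z b = Y' (some b))
    (h : ∀ f, f ≠ a → f ≠ b → Z f ≠ 0 → Z f = Y (some f) ∨ Z f = Y' (some f)) :
    Conf (keep Z) Y Y' := by
  rintro (_ | f) ho
  · exact absurd rfl ho
  · rw [keep_some] at ho ⊢
    by_cases h1 : f = a
    · subst h1; exact ha ho
    · by_cases h2 : f = b
      · subst h2; exact hb ho
      · exact h f h1 h2 ho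

theorem conf_repl {Z : α → SignType} {Y Y' : Option α → SignType} (hab : a ≠ b)
    (ha : Z a = Y none ∨ Z a = Y' none)
    (hb : Z b ≠ 0 → Z b = Y (some b) ∨ Z b = Y' (some b))
    (h : ∀ f, f ≠ a → f ≠ b → Z f ≠ 0 → Z f = Y (some f) ∨ Z f = Y' (some f)) :
    Conf (repl a Z) Y Y' := by
  rintro (_ | f) ho
  · exact ha
  · by_cases h1 : f = a
    · subst h1; simp at ho
    · rw [repl_ne h1] at ho ⊢
      by_cases h2 : f = b
      · subst h2; exact hb ho
      · exact h f h1 h2 ho

theorem conf_lex3 {Z : α → SignType} {Y Y' : Option α → SignType} (hab : a ≠ b)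
    (hp : Z b = Y none ∨ Z b = Y' none)
    (ha : -Z b = Y (some a) ∨ -Z b = Y' (some a))
    (h : ∀ f, f ≠ a → f ≠ b → Z f ≠ 0 → Z f = Y (some f) ∨ Z f = Y' (some f)) :
    Conf (lex3 a b Z) Y Y' := by
  rintro (_ | f) ho
  · exact hp
  · by_cases h1 : f = a
    · subst h1; rw [lex3_a]; exact ha
    · by_cases h2 : f = b
      · subst h2; rw [lex3_b hab] at ho; exact absurd rfl ho
      · rw [lex3_ne h1 h2] at ho ⊢
        exact h f h1 h2 ho

theorem conf_pcirc {s : SignType} {Y Y' : Option α → SignType}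
    (hp : -s = Y none ∨ -s = Y' none)
    (ha : s = Y (some a) ∨ s = Y' (some a))
    (hb : s = Y (some b) ∨ s = Y' (some b)) :
    Conf (pcirc a b s) Y Y' := by
  rintro (_ | f) ho
  · exact hp
  · by_cases h1 : f = a
    · subst h1; rw [pcirc_a]; exact ha
    · by_cases h2 : f = b
      · subst h2; rw [pcirc_b]; exact hb
      · rw [pcirc_ne h1 h2] at ho; exact absurd rfl ho

/-- a circuit `Z` avoiding `a` can be moved to a circuit through `a` (with prescribed sign) inside
`supp Z ∪ {a}`, which agrees with `Z` outside `a` -/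
theorem exists_move [Finite α] (O : OMat α) {Z V₀ : α → SignType} (hZ : Z ∈ O.circuits)
    (hZa : Z a = 0) (hV : V₀ ∈ O.circuits) (hVa : V₀ a ≠ 0)
    (hVs : ∀ f, V₀ f ≠ 0 → f = a ∨ Z f ≠ 0) :
    ∃ V ∈ O.circuits, V a = V₀ a ∧ ∀ f, f ≠ a → V f ≠ 0 → V f = Z f := by
  obtain ⟨n, hn⟩ : ∃ n, {f | f ≠ a ∧ V₀ f ≠ 0 ∧ V₀ f ≠ Z f}.ncard = n := ⟨_, rfl⟩
  induction n using Nat.strong_induction_on generalizing V₀ with
  | _ n ih =>
    by_cases hd : ∃ g, g ≠ a ∧ V₀ g ≠ 0 ∧ V₀ g ≠ Z g
    · obtain ⟨g, hga, hg0, hgZ⟩ := hd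
      have hZg : Z g ≠ 0 := by
        rcases hVs g hg0 with h | h
        · exact absurd h hga
        · exact h
      have hopp : Z g = -V₀ g := by
        rcases sign_two hZg hg0 with h | h
        · exact absurd h.symm hgZ
        · exact h
      have hne : V₀ ≠ -Z := by
        intro h
        apply hVa
        rw [h, Pi.neg_apply, hZa]; rfl
      obtain ⟨V₁, hV₁, h1g, h1f⟩ := O.elim V₀ hV Z hZ hne g hg0 hopp
      have h1a : V₁ a ≠ 0 := by
        intro h0
        have hs : Function.support V₁ ⊆ Function.support Z := by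
          intro f hf
          have hfa : f ≠ a := by
            rintro rfl
            exact hf h0
          rcases h1f f hf with h | h
          · rcases hVs f (h ▸ hf) with h' | h'
            · exact absurd h' hfa
            · exact h'
          · exact (show Z f ≠ 0 from h ▸ hf)
        rcases O.incomp V₁ hV₁ Z hZ hs with h | h
        · rw [h] at h1g; exact hZg h1g
        · rw [h, Pi.neg_apply] at h1g
          exact neg_ne_zero' hZg h1g
      have h1a' : V₁ a = V₀ a := by
        rcases h1f a h1a with h | h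
        · exact h
        · rw [hZa] at h; exact absurd h h1a
      have hs1 : ∀ f, V₁ f ≠ 0 → f = a ∨ Z f ≠ 0 := by
        intro f hf
        rcases h1f f hf with h | h
        · exact hVs f (h ▸ hf)
        · exact Or.inr (h ▸ hf)
      have hlt : {f | f ≠ a ∧ V₁ f ≠ 0 ∧ V₁ f ≠ Z f}.ncard < n := by
        rw [← hn]
        apply Set.ncard_lt_ncard _ (Set.toFinite _)
        refine ⟨?_, ?_⟩
        · rintro f ⟨h2, h3, h4⟩
          have h5 : V₁ f = V₀ f := by
            rcases h1f f h3 with h | h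
            · exact h
            · exact absurd h h4
          exact ⟨h2, h5 ▸ h3, h5 ▸ h4⟩
        · intro h
          exact (h (show g ∈ {f | f ≠ a ∧ V₀ f ≠ 0 ∧ V₀ f ≠ Z f} from ⟨hga, hg0, hgZ⟩)).2.1 h1g
      obtain ⟨V, hV', h6, h7⟩ := ih _ hlt hV₁ h1a hs1 rfl
      exact ⟨V, hV', h6.trans h1a', h7⟩
    · push Not at hd
      exact ⟨V₀, hV, rfl, hd⟩

section

variable [Finite α] {O : OMat α} {r : ℕ}

/-- moving, in a uniform oriented matroid, with prescribed sign at `a` -/
theorem IsUniform.move (hU : IsUniform O r) {Z : α → SignType} (hZ : Z ∈ O.circuits)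
    (hZa : Z a = 0) {τ : SignType} (hτ : τ ≠ 0) :
    ∃ V ∈ O.circuits, V a = τ ∧ ∀ f, f ≠ a → V f ≠ 0 → V f = Z f := by
  have hc := hU.card_circuit hZ
  obtain ⟨g, hg⟩ : (Function.support Z).Nonempty := by
    rw [← Set.ncard_pos (Set.toFinite _)]; omega
  have hga : a ∉ Function.support Z \ {g} := by
    rintro ⟨h, -⟩
    exact h hZa
  have hcard : (insert a (Function.support Z \ {g})).ncard = r + 1 := by
    rw [Set.ncard_insert_of_notMem hga (Set.toFinite _),
      Set.ncard_sdiff_singleton_of_mem hg, hc]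
    omega
  obtain ⟨V₀, hV₀, hs⟩ := hU.exists_circuit hcard
  have hV₀a : V₀ a ≠ 0 := by
    have : a ∈ Function.support V₀ := by rw [hs]; exact Set.mem_insert _ _
    exact this
  have hsub : ∀ f, V₀ f ≠ 0 → f = a ∨ Z f ≠ 0 := by
    intro f hf
    have : f ∈ Function.support V₀ := hf
    rw [hs] at this
    rcases this with h | h
    · exact Or.inl h
    · exact Or.inr h.1
  rcases sign_two hV₀a hτ with h | h
  · obtain ⟨V, h1, h2, h3⟩ := exists_move O hZ hZa hV₀ hV₀a hsub
    exact ⟨V, h1, h2.trans h, h3⟩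
  · obtain ⟨V, h1, h2, h3⟩ := exists_move O hZ hZa (V₀ := -V₀) (O.neg_mem _ hV₀)
      (by rw [Pi.neg_apply]; exact neg_ne_zero' hV₀a) (by
        intro f hf
        apply hsub
        intro h0
        apply hf
        rw [Pi.neg_apply, h0]; rfl)
    refine ⟨V, h1, ?_, h3⟩
    rw [h2, Pi.neg_apply, h, neg_neg]

/-- conversion of a circuit whose sign at `b` is `t` -/
theorem convert_b (hU : IsUniform O r) (hab : a ≠ b) {Y Y' : Option α → SignType}
    {Z : α → SignType} (hZ : Z ∈ O.circuits) {t : SignType} (ht : t ≠ 0) (hZb : Z b = t)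
    (hp : t = Y none ∨ t = Y' none) (ha : -t = Y (some a) ∨ -t = Y' (some a))
    (h : ∀ f, f ≠ a → f ≠ b → Z f ≠ 0 → Z f = Y (some f) ∨ Z f = Y' (some f)) :
    ∃ W ∈ Lx O a b, W (some b) = 0 ∧ (∀ e, e ≠ a → Z e = 0 → W (some e) = 0) ∧ Conf W Y Y' := by
  by_cases hZa : Z a = 0
  · obtain ⟨V, hV, hVa, hVf⟩ := hU.move hZ hZa (neg_ne_zero' ht)
    have hVf' : ∀ f, f ≠ a → f ≠ b → V f ≠ 0 → V f = Y (some f) ∨ V f = Y' (some f) := by
      intro f h1 h2 h3
      rw [hVf f h1 h3]
      exact h f h1 h2 (by rw [← hVf f h1 h3]; exact h3)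
    have hVe : ∀ e, e ≠ a → Z e = 0 → V e = 0 := by
      intro e h1 h2
      by_contra h3
      rw [hVf e h1 h3] at h3
      exact h3 h2
    by_cases hVb : V b = 0
    · refine ⟨keep V, Or.inl ⟨V, hV, rfl⟩, hVb, fun e h1 h2 => hVe e h1 h2, ?_⟩
      apply conf_keep _ _ hVf'
      · intro _; rw [hVa]; exact ha
      · intro h0; exact absurd hVb h0
    · have hVb' : V b = t := (hVf b hab.symm hVb).trans hZb
      refine ⟨lex3 a b V, Or.inr (Or.inr (Or.inl ⟨V, hV, ?_, hVb, rfl⟩)), lex3_b hab V, ?_, ?_⟩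
      · rw [hVa]; exact neg_ne_zero' ht
      · intro e h1 h2
        by_cases h3 : e = b
        · subst h3; exact lex3_b hab V
        · rw [lex3_ne h1 h3]; exact hVe e h1 h2
      · apply conf_lex3 hab _ _ hVf'
        · rw [hVb']; exact hp
        · rw [hVb']; exact ha
  · refine ⟨lex3 a b Z, Or.inr (Or.inr (Or.inl ⟨Z, hZ, hZa, by rw [hZb]; exact ht, rfl⟩)),
      lex3_b hab Z, ?_, ?_⟩
    · intro e h1 h2
      by_cases h3 : e = b
      · subst h3; exact lex3_b hab Z
      · rw [lex3_ne h1 h3]; exact h2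
    · apply conf_lex3 hab _ _ h
      · rw [hZb]; exact hp
      · rw [hZb]; exact ha

/-- conversion of a circuit -/
theorem convert_all (hU : IsUniform O r) (hab : a ≠ b) {Y Y' : Option α → SignType}
    {Z : α → SignType} (hZ : Z ∈ O.circuits) {t : SignType} (ht : t ≠ 0)
    (hp : t = Y none ∨ t = Y' none) (ha : -t = Y (some a) ∨ -t = Y' (some a))
    (hb : Z b ≠ 0 → (Z b = Y (some b) ∨ Z b = Y' (some b)) ∨ Z b = t)
    (h : ∀ f, f ≠ a → f ≠ b → Z f ≠ 0 → Z f = Y (some f) ∨ Z f = Y' (some f))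
    {e : α} (he : e ≠ a) (hZe : Z e = 0) :
    ∃ W ∈ Lx O a b, W (some e) = 0 ∧ Conf W Y Y' := by
  by_cases hb' : Z b ≠ 0 → Z b = Y (some b) ∨ Z b = Y' (some b)
  · by_cases hZa : Z a = 0
    · refine ⟨keep Z, Or.inl ⟨Z, hZ, rfl⟩, hZe, ?_⟩
      exact conf_keep (fun h0 => absurd hZa h0) hb' h
    · rcases sign_two hZa ht with h1 | h1
      · refine ⟨repl a Z, Or.inr (Or.inl ⟨Z, hZ, hZa, rfl⟩), by rw [repl_ne he]; exact hZe, ?_⟩
        exact conf_repl hab (by rw [h1]; exact hp) hb' h
      · refine ⟨keep Z, Or.inl ⟨Z, hZ, rfl⟩, hZe, ?_⟩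
        exact conf_keep (fun _ => by rw [h1]; exact ha) hb' h
  · push Not at hb'
    obtain ⟨h0, h1, h2⟩ := hb'
    have h3 : Z b = t := by
      rcases hb h0 with (h4 | h4) | h4
      · exact absurd h4 h1
      · exact absurd h4 h2
      · exact h4
    obtain ⟨W, hW, -, hWe, hWc⟩ := convert_b hU hab hZ ht h3 hp ha h
    exact ⟨W, hW, hWe e he hZe, hWc⟩

end

end Pool.Agent.H29.OM
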