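import Mathlib
import Pool.Agent.H29.OM.Lex

/-!
# The lexicographic extension: elimination
-/

set_option autoImplicit false

open Set Pool.Agent.Q288.OM

namespace Pool.Agent.H29.OM

variable {α : Type} {a b : α}

/-- elimination for the pair `Y`, `Y'` -/
def El (O : OMat α) (a b : α) (Y Y' : Option α → SignType) : Prop :=
  Y ≠ -Y' → ∀ o, Y o ≠ 0 → Y' o = -Y o → ∃ W ∈ Lx O a b, W o = 0 ∧ Conf W Y Y'

theorem El.symm {O : OMat α} {Y Y' : Option α → SignType} (h : El O a b Y Y') :
    El O a b Y' Y := by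
  intro hne o ho ho'
  have hne' : Y ≠ -Y' := by
    rintro rfl
    exact hne (neg_neg _).symm
  have h1 : Y o ≠ 0 := by rw [ho']; exact neg_ne_zero' ho
  obtain ⟨W, hW, h2, h3⟩ := h hne' o h1 (by rw [ho', neg_neg])
  exact ⟨W, hW, h2, fun o' ho'' => (h3 o' ho'').symm⟩

theorem neg_eq_zero_iff' {s : SignType} : -s = 0 ↔ s = 0 := by revert s; decide

theorem El_pp {O : OMat α} {s s' : SignType} (hs : s ≠ 0) (hs' : s' ≠ 0) :
    El O a b (pcirc a b s) (pcirc a b s') := by
  intro hne o ho ho'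
  exfalso
  rcases sign_two hs hs' with h | h
  · subst h
    exact sign_ne_neg ho ho'
  · apply hne
    rw [neg_pcirc, h]

section

variable [Finite α] {O : OMat α} {r : ℕ}

theorem El_kk {X X' : α → SignType} (hX : X ∈ O.circuits) (hX' : X' ∈ O.circuits) :
    El O a b (keep X) (keep X') := by
  rintro hne (_ | e) ho ho'
  · exact absurd rfl ho
  have h1 : X ≠ -X' := by
    rintro h; apply hne; rw [neg_keep, h]
  obtain ⟨Z, hZ, hZe, hZf⟩ := O.elim X hX X' hX' h1 e ho ho'
  exact ⟨keep Z, Or.inl ⟨Z, hZ, rfl⟩, hZe,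
    conf_keep (fun h => hZf a h) (fun h => hZf b h) (fun f _ _ h => hZf f h)⟩

theorem El_kr (hU : IsUniform O r) (hab : a ≠ b) {X X' : α → SignType} (hX : X ∈ O.circuits)
    (hX' : X' ∈ O.circuits) (hX'a : X' a ≠ 0) : El O a b (keep X) (repl a X') := by
  rintro hne (_ | e) ho ho'
  · exact absurd rfl ho
  rw [keep_some] at ho ho'
  have hea : e ≠ a := by
    rintro rfl
    rw [repl_self] at ho'
    exact ho (neg_eq_zero_iff'.1 ho'.symm)
  rw [repl_ne hea] at ho'
  by_cases h1 : X = -X'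
  · have both : ∀ f, X' f = -X f := by
      intro f; rw [h1, Pi.neg_apply, neg_neg]
    have hXa : X a ≠ 0 := by
      intro h; apply hX'a; rw [both, h]; rfl
    -- a circuit `W` with `W b = - X a` whose other elements are in the support of `X`
    have fin : ∀ W ∈ O.circuits, W a ≠ 0 → W b = -X a → (∀ f, f ≠ b → W f ≠ 0 → X f ≠ 0) →
        (e = b ∨ W e = 0) → ∃ W ∈ Lx O a b, W (some e) = 0 ∧ Conf W (keep X) (repl a X') := by
      intro W hW hWa hWb hWf hWe
      have hWb0 : W b ≠ 0 := by rw [hWb]; exact neg_ne_zero' hXa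
      refine ⟨lex3 a b W, Or.inr (Or.inr (Or.inl ⟨W, hW, hWa, hWb0, rfl⟩)), ?_, ?_⟩
      · by_cases heb : e = b
        · subst heb; exact lex3_b hab W
        · rw [lex3_ne hea heb]
          rcases hWe with h | h
          · exact absurd h heb
          · exact h
      · apply conf_lex3 hab
        · right; rw [repl_none, both, hWb]
        · left; rw [keep_some, hWb, neg_neg]
        · intro f hfa hfb hf
          rcases sign_two hf (hWf f hfb hf) with h | h
          · left; exact h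
          · right; rw [repl_ne hfa, both]; exact h
    by_cases hXb : X b = 0
    · have heb : e ≠ b := by
        rintro rfl
        exact ho hXb
      have hc := hU.card_circuit hX
      have hcard : (insert b (Function.support X \ {e})).ncard = r + 1 := by
        rw [Set.ncard_insert_of_notMem (fun h => h.1 hXb) (Set.toFinite _),
          Set.ncard_sdiff_singleton_of_mem (show e ∈ Function.support X from ho), hc]
        omega
      obtain ⟨W, hW, hWs⟩ := hU.exists_circuit hcard
      have hWa : W a ≠ 0 := by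
        have : a ∈ Function.support W := by
          rw [hWs]; exact Or.inr ⟨hXa, fun h => hea h.symm⟩
        exact this
      have hWb : W b ≠ 0 := by
        have : b ∈ Function.support W := by rw [hWs]; exact Or.inl rfl
        exact this
      have hWf : ∀ f, f ≠ b → W f ≠ 0 → X f ≠ 0 := by
        intro f hf h
        have : f ∈ Function.support W := h
        rw [hWs] at this
        rcases this with h2 | h2
        · exact absurd h2 hf
        · exact h2.1
      have hWe : W e = 0 := by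
        by_contra h
        have : e ∈ Function.support W := h
        rw [hWs] at this
        rcases this with h2 | h2
        · exact heb h2
        · exact h2.2 rfl
      rcases sign_two hWb (neg_ne_zero' hXa) with h | h
      · exact fin W hW hWa h hWf (Or.inr hWe)
      · refine fin (-W) (O.neg_mem W hW) (by rw [Pi.neg_apply]; exact neg_ne_zero' hWa)
          (by rw [Pi.neg_apply, h, neg_neg]) ?_ (Or.inr (by rw [Pi.neg_apply, hWe]; rfl))
        intro f hf h2
        exact hWf f hf (fun h3 => h2 (by rw [Pi.neg_apply, h3]; rfl))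
    · by_cases heb : e = b
      · rcases sign_two hXb (neg_ne_zero' hXa) with h | h
        · exact fin X hX hXa h (fun f _ h2 => h2) (Or.inl heb)
        · refine fin (-X) (O.neg_mem X hX) (by rw [Pi.neg_apply]; exact neg_ne_zero' hXa)
            (by rw [Pi.neg_apply, h, neg_neg]) ?_ (Or.inl heb)
          intro f _ h2 h3
          exact h2 (by rw [Pi.neg_apply, h3]; rfl)
      · refine ⟨pcirc a b (X a), Or.inr (Or.inr (Or.inr ⟨X a, hXa, rfl⟩)),
          pcirc_ne hea heb _, ?_⟩
        apply conf_pcirc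
        · right; rw [repl_none, both]
        · left; rfl
        · rcases sign_two hXa hXb with h | h
          · left; exact h
          · right; rw [repl_ne hab.symm, both]; exact h
  · obtain ⟨Z, hZ, hZe, hZf⟩ := O.elim X hX X' hX' h1 e ho ho'
    have oth : ∀ f, f ≠ a → Z f ≠ 0 → Z f = keep X (some f) ∨ Z f = repl a X' (some f) := by
      intro f hfa hf
      rw [keep_some, repl_ne hfa]
      exact hZf f hf
    by_cases hZa : Z a ≠ 0 → Z a = X a
    · exact ⟨keep Z, Or.inl ⟨Z, hZ, rfl⟩, hZe,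
        conf_keep (fun h => Or.inl (hZa h)) (fun h => oth b hab.symm h)
          (fun f h2 _ h3 => oth f h2 h3)⟩
    · push Not at hZa
      have h3 : Z a = X' a := by
        rcases hZf a hZa.1 with h4 | h4
        · exact absurd h4 hZa.2
        · exact h4
      exact ⟨repl a Z, Or.inr (Or.inl ⟨Z, hZ, hZa.1, rfl⟩), by rw [repl_ne hea]; exact hZe,
        conf_repl hab (Or.inr h3) (fun h => oth b hab.symm h) (fun f h2 _ h4 => oth f h2 h4)⟩

theorem El_kl (hU : IsUniform O r) (hab : a ≠ b) {X X' : α → SignType} (hX : X ∈ O.circuits)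
    (hX' : X' ∈ O.circuits) (hX'b : X' b ≠ 0) :
    El O a b (keep X) (lex3 a b X') := by
  rintro hne (_ | e) ho ho'
  · exact absurd rfl ho
  rw [keep_some] at ho ho'
  by_cases hea : e = a
  · subst hea
    rw [lex3_a] at ho'
    have h1 : X' b = X e := by
      have := congrArg (fun s => -s) ho'
      simpa using this
    refine ⟨repl e X, Or.inr (Or.inl ⟨X, hX, ho, rfl⟩), by simp, ?_⟩
    exact conf_repl hab (Or.inr (by rw [lex3_none, h1])) (fun _ => Or.inl rfl)
      (fun f _ _ _ => Or.inl rfl)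
  by_cases heb : e = b
  · subst heb
    rw [lex3_b hab] at ho'
    exact absurd (neg_eq_zero_iff'.1 ho'.symm) ho
  rw [lex3_ne hea heb] at ho'
  by_cases h1 : X = -X'
  · refine ⟨pcirc a b (-X' b), Or.inr (Or.inr (Or.inr ⟨_, neg_ne_zero' hX'b, rfl⟩)),
      pcirc_ne hea heb _, ?_⟩
    apply conf_pcirc
    · right; rw [neg_neg]; rfl
    · right; rw [lex3_a]
    · left; rw [h1]; rfl
  · obtain ⟨Z, hZ, hZe, hZf⟩ := O.elim X hX X' hX' h1 e ho ho'
    refine convert_all hU hab hZ hX'b (Or.inr rfl) (Or.inr (lex3_a X').symm) ?_ ?_ hea hZe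
    · intro h
      rcases hZf b h with h2 | h2
      · exact Or.inl (Or.inl h2)
      · exact Or.inr h2
    · intro f h2 h3 h4
      rw [keep_some, lex3_ne h2 h3]
      exact hZf f h4

theorem El_kp (hU : IsUniform O r) (hab : a ≠ b) {X : α → SignType} (hX : X ∈ O.circuits)
    {s : SignType} (hs : s ≠ 0) : El O a b (keep X) (pcirc a b s) := by
  rintro hne (_ | e) ho ho'
  · exact absurd rfl ho
  rw [keep_some] at ho ho'
  by_cases hea : e = a
  · subst hea
    rw [pcirc_a] at ho'
    refine ⟨repl e X, Or.inr (Or.inl ⟨X, hX, ho, rfl⟩), by simp, ?_⟩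
    exact conf_repl hab (Or.inr (by rw [pcirc_none, ho', neg_neg])) (fun _ => Or.inl rfl)
      (fun f _ _ _ => Or.inl rfl)
  by_cases heb : e = b
  · subst heb
    rw [pcirc_b] at ho'
    obtain ⟨W, hW, h1, -, h2⟩ := convert_b hU hab (Y := keep X) (Y' := pcirc a e s) hX
      (neg_ne_zero' hs) (show X e = -s by rw [ho', neg_neg]) (Or.inr rfl)
      (Or.inr (by rw [pcirc_a, neg_neg])) (fun f _ _ _ => Or.inl rfl)
    exact ⟨W, hW, h1, h2⟩
  · rw [pcirc_ne hea heb] at ho'
    exact absurd (neg_eq_zero_iff'.1 ho'.symm) ho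

theorem El_rr (hab : a ≠ b) {X X' : α → SignType} (hX : X ∈ O.circuits)
    (hX' : X' ∈ O.circuits) : El O a b (repl a X) (repl a X') := by
  intro hne o ho ho'
  have h1 : X ≠ -X' := by
    rintro h; apply hne; rw [neg_repl, h]
  rcases o with _ | e
  · obtain ⟨Z, hZ, hZe, hZf⟩ := O.elim X hX X' hX' h1 a ho ho'
    refine ⟨keep Z, Or.inl ⟨Z, hZ, rfl⟩, rfl, ?_⟩
    refine conf_keep (a := a) (b := b) (fun h => absurd hZe h) ?_ ?_
    · intro h; rw [repl_ne hab.symm, repl_ne hab.symm]; exact hZf b h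
    · intro f h2 _ h3; rw [repl_ne h2, repl_ne h2]; exact hZf f h3
  · have hea : e ≠ a := by
      rintro rfl
      exact ho (repl_self e X)
    rw [repl_ne hea] at ho ho'
    rw [repl_ne hea] at ho'
    obtain ⟨Z, hZ, hZe, hZf⟩ := O.elim X hX X' hX' h1 e ho ho'
    have oth : ∀ f, f ≠ a → Z f ≠ 0 → Z f = repl a X (some f) ∨ Z f = repl a X' (some f) := by
      intro f h2 h3; rw [repl_ne h2, repl_ne h2]; exact hZf f h3
    by_cases hZa : Z a = 0
    · exact ⟨keep Z, Or.inl ⟨Z, hZ, rfl⟩, hZe, conf_keep (fun h => absurd hZa h)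
        (fun h => oth b hab.symm h) (fun f h2 _ h3 => oth f h2 h3)⟩
    · exact ⟨repl a Z, Or.inr (Or.inl ⟨Z, hZ, hZa, rfl⟩), by rw [repl_ne hea]; exact hZe,
        conf_repl hab (hZf a hZa) (fun h => oth b hab.symm h) (fun f h2 _ h3 => oth f h2 h3)⟩

theorem El_rl (hU : IsUniform O r) (hab : a ≠ b) {X X' : α → SignType} (hX : X ∈ O.circuits)
    (hX' : X' ∈ O.circuits) (hX'b : X' b ≠ 0) :
    El O a b (repl a X) (lex3 a b X') := by
  rintro hne (_ | e) ho ho'
  · rw [repl_none] at ho ho'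
    rw [lex3_none] at ho'
    refine ⟨keep X, Or.inl ⟨X, hX, rfl⟩, rfl, ?_⟩
    refine conf_keep (a := a) (b := b) (fun _ => Or.inr (by rw [lex3_a, ho', neg_neg])) ?_ ?_
    · intro _; left; rw [repl_ne hab.symm]
    · intro f h2 _ _; left; rw [repl_ne h2]
  by_cases hea : e = a
  · subst hea
    exact absurd (repl_self e X) ho
  rw [repl_ne hea] at ho ho'
  by_cases heb : e = b
  · subst heb
    rw [lex3_b hab] at ho'
    exact absurd (neg_eq_zero_iff'.1 ho'.symm) ho
  rw [lex3_ne hea heb] at ho'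
  by_cases h1 : X = -X'
  · refine ⟨pcirc a b (-X' b), Or.inr (Or.inr (Or.inr ⟨_, neg_ne_zero' hX'b, rfl⟩)),
      pcirc_ne hea heb _, ?_⟩
    apply conf_pcirc
    · right; rw [neg_neg]; rfl
    · right; rw [lex3_a]
    · left; rw [repl_ne hab.symm, h1]; rfl
  · obtain ⟨Z, hZ, hZe, hZf⟩ := O.elim X hX X' hX' h1 e ho ho'
    refine convert_all hU hab hZ hX'b (Or.inr rfl) (Or.inr (lex3_a X').symm) ?_ ?_ hea hZe
    · intro h
      rw [repl_ne hab.symm]
      rcases hZf b h with h2 | h2
      · exact Or.inl (Or.inl h2)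
      · exact Or.inr h2
    · intro f h2 h3 h4
      rw [repl_ne h2, lex3_ne h2 h3]
      exact hZf f h4

theorem El_rp (hab : a ≠ b) {X : α → SignType} (hX : X ∈ O.circuits) (hXa : X a ≠ 0)
    {s : SignType} : El O a b (repl a X) (pcirc a b s) := by
  rintro hne (_ | e) ho ho'
  · rw [repl_none, pcirc_none] at ho'
    have h1 : X a = s := by
      have := congrArg (fun s => -s) ho'
      simpa using this.symm
    refine ⟨keep X, Or.inl ⟨X, hX, rfl⟩, rfl, ?_⟩
    refine conf_keep (a := a) (b := b) (fun _ => Or.inr (by rw [pcirc_a, h1])) ?_ ?_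
    · intro _; left; rw [repl_ne hab.symm]
    · intro f h2 _ _; left; rw [repl_ne h2]
  by_cases hea : e = a
  · subst hea
    exact absurd (repl_self e X) ho
  rw [repl_ne hea] at ho ho'
  by_cases heb : e = b
  · subst heb
    rw [pcirc_b] at ho'
    refine ⟨lex3 a e X, Or.inr (Or.inr (Or.inl ⟨X, hX, hXa, ho, rfl⟩)), lex3_b hab X, ?_⟩
    apply conf_lex3 hab
    · right; rw [pcirc_none, ho', neg_neg]
    · right; rw [pcirc_a, ho']
    · intro f h2 _ _; left; rw [repl_ne h2]
  · rw [pcirc_ne hea heb] at ho'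
    exact absurd (neg_eq_zero_iff'.1 ho'.symm) ho

theorem El_ll (hU : IsUniform O r) (hab : a ≠ b) {X X' : α → SignType} (hX : X ∈ O.circuits)
    (hX' : X' ∈ O.circuits) (hXb : X b ≠ 0) (hX'b : X' b ≠ 0) :
    El O a b (lex3 a b X) (lex3 a b X') := by
  intro hne o ho ho'
  have h1 : X ≠ -X' := by
    rintro h; apply hne; rw [neg_lex3, h]
  rcases o with _ | e
  · rw [lex3_none] at ho ho'
    rw [lex3_none] at ho'
    obtain ⟨Z, hZ, hZe, hZf⟩ := O.elim X hX X' hX' h1 b ho ho'
    refine ⟨keep Z, Or.inl ⟨Z, hZ, rfl⟩, rfl, ?_⟩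
    refine conf_keep (a := a) (b := b) ?_ (fun h => absurd hZe h) ?_
    · intro h
      rw [lex3_a, lex3_a, ho', neg_neg]
      exact (sign_two h hXb).symm
    · intro f h2 h3 h4; rw [lex3_ne h2 h3, lex3_ne h2 h3]; exact hZf f h4
  by_cases hea : e = a
  · subst hea
    rw [lex3_a, lex3_a, neg_neg] at ho'
    have h2 : X' b = -X b := by
      have := congrArg (fun s => -s) ho'
      simpa using this
    obtain ⟨Z, hZ, hZe, hZf⟩ := O.elim X hX X' hX' h1 b hXb h2
    have oth : ∀ f, f ≠ e → f ≠ b → Z f ≠ 0 →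
        Z f = lex3 e b X (some f) ∨ Z f = lex3 e b X' (some f) := by
      intro f h2 h3 h4; rw [lex3_ne h2 h3, lex3_ne h2 h3]; exact hZf f h4
    by_cases hZa : Z e = 0
    · exact ⟨keep Z, Or.inl ⟨Z, hZ, rfl⟩, hZa,
        conf_keep (fun h => absurd hZa h) (fun h => absurd hZe h) oth⟩
    · refine ⟨repl e Z, Or.inr (Or.inl ⟨Z, hZ, hZa, rfl⟩), by simp, ?_⟩
      refine conf_repl hab ?_ (fun h => absurd hZe h) oth
      rw [lex3_none, lex3_none, h2]
      exact sign_two hZa hXb
  by_cases heb : e = b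
  · subst heb
    exact absurd (lex3_b hab X) ho
  rw [lex3_ne hea heb] at ho ho'
  rw [lex3_ne hea heb] at ho'
  obtain ⟨Z, hZ, hZe, hZf⟩ := O.elim X hX X' hX' h1 e ho ho'
  have oth : ∀ f, f ≠ a → f ≠ b → Z f ≠ 0 →
      Z f = lex3 a b X (some f) ∨ Z f = lex3 a b X' (some f) := by
    intro f h2 h3 h4; rw [lex3_ne h2 h3, lex3_ne h2 h3]; exact hZf f h4
  by_cases hZb : Z b = 0
  · exact convert_all hU hab hZ hXb (Or.inl rfl) (Or.inl (lex3_a X).symm)
      (fun h => absurd hZb h) oth hea hZe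
  · refine convert_all hU hab hZ hZb ?_ ?_ (fun _ => Or.inr rfl) oth hea hZe
    · exact hZf b hZb
    · rw [lex3_a, lex3_a]
      rcases hZf b hZb with h | h
      · left; rw [h]
      · right; rw [h]

theorem El_lp (hab : a ≠ b) {X : α → SignType} (hX : X ∈ O.circuits) (hXa : X a ≠ 0)
    (hXb : X b ≠ 0) {s : SignType} : El O a b (lex3 a b X) (pcirc a b s) := by
  rintro hne (_ | e) ho ho'
  · rw [lex3_none, pcirc_none] at ho'
    have h1 : X b = s := by
      have := congrArg (fun s => -s) ho'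
      simpa using this.symm
    refine ⟨keep X, Or.inl ⟨X, hX, rfl⟩, rfl, ?_⟩
    refine conf_keep (a := a) (b := b) ?_ (fun _ => Or.inr (by rw [pcirc_b, h1])) ?_
    · intro _
      rw [lex3_a, pcirc_a, ← h1]
      exact (sign_two hXa hXb).symm
    · intro f h2 h3 _; left; rw [lex3_ne h2 h3]
  by_cases hea : e = a
  · subst hea
    rw [lex3_a, pcirc_a, neg_neg] at ho'
    refine ⟨repl e X, Or.inr (Or.inl ⟨X, hX, hXa, rfl⟩), by simp, ?_⟩
    refine conf_repl hab ?_ (fun _ => Or.inr (by rw [pcirc_b, ho'])) ?_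
    · rw [lex3_none, pcirc_none, ho']
      exact sign_two hXa hXb
    · intro f h2 h3 _; left; rw [lex3_ne h2 h3]
  by_cases heb : e = b
  · subst heb
    exact absurd (lex3_b hab X) ho
  · rw [pcirc_ne hea heb, lex3_ne hea heb] at ho'
    rw [lex3_ne hea heb] at ho
    exact absurd (neg_eq_zero_iff'.1 ho'.symm) ho

theorem El_all (hU : IsUniform O r) (hab : a ≠ b) {Y Y' : Option α → SignType}
    (hY : Y ∈ Lx O a b) (hY' : Y' ∈ Lx O a b) : El O a b Y Y' := by
  rcases hY with ⟨X, hX, rfl⟩ | ⟨X, hX, hXa, rfl⟩ | ⟨X, hX, hXa, hXb, rfl⟩ | ⟨s, hs, rfl⟩ <;>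
  rcases hY' with ⟨X', hX', rfl⟩ | ⟨X', hX', hX'a, rfl⟩ | ⟨X', hX', hX'a, hX'b, rfl⟩ |
    ⟨t, ht, rfl⟩
  · exact El_kk hX hX'
  · exact El_kr hU hab hX hX' hX'a
  · exact El_kl hU hab hX hX' hX'b
  · exact El_kp hU hab hX ht
  · exact (El_kr hU hab hX' hX hXa).symm
  · exact El_rr hab hX hX'
  · exact El_rl hU hab hX hX' hX'b
  · exact El_rp hab hX hXa
  · exact (El_kl hU hab hX' hX hXb).symm
  · exact (El_rl hU hab hX' hX hXb).symm
  · exact El_ll hU hab hX hX' hXb hX'b
  · exact El_lp hab hX hXa hXb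
  · exact (El_kp hU hab hX' hs).symm
  · exact (El_rp hab hX' hX'a).symm
  · exact (El_lp hab hX' hX'a hX'b).symm
  · exact El_pp hs ht

end

end Pool.Agent.H29.OM
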