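import Mathlib
import Pool.Agent.H29.OM.Lex2
import Pool.Agent.H29.OM.Gen2

/-!
# The lexicographic extension of a uniform oriented matroid
-/

set_option autoImplicit false

open Set Pool.Agent.Q288.OM

namespace Pool.Agent.H29.OM

variable {α : Type} [Finite α] {O : OMat α} {r : ℕ} {a b : α}

omit [Finite α] in
theorem ncard_pair_le (a b : α) : ({a, b} : Set α).ncard ≤ 2 := by
  have h := Set.ncard_insert_le a ({b} : Set α)
  rwa [Set.ncard_singleton] at h

theorem IsUniform.outside (hU : IsUniform O r) (hr : 2 ≤ r) (a b : α) {X : α → SignType}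
    (hX : X ∈ O.circuits) : ∃ f, f ≠ a ∧ f ≠ b ∧ X f ≠ 0 := by
  by_contra hcon
  push Not at hcon
  have h1 : Function.support X ⊆ {a, b} := by
    intro f hf
    by_contra h2
    rw [Set.mem_insert_iff, Set.mem_singleton_iff, not_or] at h2
    exact hf (hcon f h2.1 h2.2)
  have h2 := Set.ncard_le_ncard h1 (Set.toFinite _)
  have h3 : ({a, b} : Set α).ncard ≤ 2 := ncard_pair_le a b
  rw [hU.card_circuit hX] at h2
  omega

/-- the lexicographic extension -/
noncomputable def lexExt (O : OMat α) (a b : α) (hU : IsUniform O r) (hr : 2 ≤ r) (hab : a ≠ b) :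
    OMat (Option α) where
  circuits := Lx O a b
  zero_notMem := by
    rintro (⟨X, hX, h⟩ | ⟨X, hX, hXa, h⟩ | ⟨X, hX, hXa, hXb, h⟩ | ⟨s, hs, h⟩)
    · apply O.zero_notMem
      have : X = 0 := by
        funext e
        have := congrFun h (some e)
        simpa using this.symm
      rwa [this] at hX
    · exact hXa (congrFun h none).symm
    · exact hXb (congrFun h none).symm
    · exact neg_ne_zero' hs (congrFun h none).symm
  neg_mem := by
    rintro Y (⟨X, hX, rfl⟩ | ⟨X, hX, hXa, rfl⟩ | ⟨X, hX, hXa, hXb, rfl⟩ | ⟨s, hs, rfl⟩)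
    · exact Or.inl ⟨-X, O.neg_mem X hX, neg_keep X⟩
    · exact Or.inr (Or.inl ⟨-X, O.neg_mem X hX, neg_ne_zero' hXa, neg_repl a X⟩)
    · exact Or.inr (Or.inr (Or.inl ⟨-X, O.neg_mem X hX, neg_ne_zero' hXa, neg_ne_zero' hXb,
        neg_lex3 X⟩))
    · exact Or.inr (Or.inr (Or.inr ⟨-s, neg_ne_zero' hs, neg_pcirc s⟩))
  incomp := by
    have key : ∀ X ∈ O.circuits, ∀ X' ∈ O.circuits, (∀ e, X e ≠ 0 → X' e ≠ 0) →
        X = X' ∨ X = -X' := fun X hX X' hX' h => O.incomp X hX X' hX' h
    have zer : ∀ (X X' : α → SignType) (e : α), (X = X' ∨ X = -X') → X' e ≠ 0 → X e ≠ 0 := by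
      rintro X X' e (h | h) h'
      · rw [h]; exact h'
      · rw [h, Pi.neg_apply]; exact neg_ne_zero' h'
    intro Y hY Y' hY' h
    have h' : ∀ o, Y o ≠ 0 → Y' o ≠ 0 := fun o ho => h ho
    clear h
    rcases hY with ⟨X, hX, rfl⟩ | ⟨X, hX, hXa, rfl⟩ | ⟨X, hX, hXa, hXb, rfl⟩ | ⟨s, hs, rfl⟩ <;>
    rcases hY' with ⟨X', hX', rfl⟩ | ⟨X', hX', hX'a, rfl⟩ | ⟨X', hX', hX'a, hX'b, rfl⟩ |
      ⟨t, ht, rfl⟩
    · -- keep, keep
      rcases key X hX X' hX' (fun e he => h' (some e) he) with h2 | h2
      · left; rw [h2]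
      · right; rw [h2, neg_keep]
    · -- keep, repl
      exfalso
      have hXa : X a = 0 := by
        by_contra h2
        exact h' (some a) h2 (repl_self a X')
      exact zer X X' a (key X hX X' hX' (fun e he => by
        have hea : e ≠ a := by rintro rfl; exact he hXa
        have := h' (some e) he
        rwa [repl_ne hea] at this)) hX'a hXa
    · -- keep, lex3
      exfalso
      have hXb : X b = 0 := by
        by_contra h2
        exact h' (some b) h2 (lex3_b hab X')
      exact zer X X' b (key X hX X' hX' (fun e he => by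
        have heb : e ≠ b := by rintro rfl; exact he hXb
        by_cases hea : e = a
        · rw [hea]; exact hX'a
        · have := h' (some e) he
          rwa [lex3_ne hea heb] at this)) hX'b hXb
    · -- keep, pcirc
      exfalso
      obtain ⟨f, h1, h2, h3⟩ := hU.outside hr a b hX
      exact h' (some f) h3 (pcirc_ne h1 h2 t)
    · -- repl, keep
      exact absurd rfl (h' none hXa)
    · -- repl, repl
      rcases key X hX X' hX' (fun e he => by
        by_cases hea : e = a
        · rw [hea]; exact hX'a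
        · have := h' (some e) (by rw [repl_ne hea]; exact he)
          rwa [repl_ne hea] at this) with h2 | h2
      · left; rw [h2]
      · right; rw [h2, neg_repl]
    · -- repl, lex3
      exfalso
      have hXb : X b = 0 := by
        by_contra h2
        exact h' (some b) (by rw [repl_ne hab.symm]; exact h2) (lex3_b hab X')
      exact zer X X' b (key X hX X' hX' (fun e he => by
        have heb : e ≠ b := by rintro rfl; exact he hXb
        by_cases hea : e = a
        · rw [hea]; exact hX'a
        · have := h' (some e) (by rw [repl_ne hea]; exact he)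
          rwa [lex3_ne hea heb] at this)) hX'b hXb
    · -- repl, pcirc
      exfalso
      obtain ⟨f, h1, h2, h3⟩ := hU.outside hr a b hX
      exact h' (some f) (by rw [repl_ne h1]; exact h3) (pcirc_ne h1 h2 t)
    · -- lex3, keep
      exact absurd rfl (h' none hXb)
    · -- lex3, repl
      exact absurd (repl_self a X') (h' (some a) (by rw [lex3_a]; exact neg_ne_zero' hXb))
    · -- lex3, lex3
      rcases key X hX X' hX' (fun e he => by
        by_cases hea : e = a
        · rw [hea]; exact hX'a
        · by_cases heb : e = b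
          · rw [heb]; exact hX'b
          · have := h' (some e) (by rw [lex3_ne hea heb]; exact he)
            rwa [lex3_ne hea heb] at this) with h2 | h2
      · left; rw [h2]
      · right; rw [h2, neg_lex3]
    · -- lex3, pcirc
      exfalso
      obtain ⟨f, h1, h2, h3⟩ := hU.outside hr a b hX
      exact h' (some f) (by rw [lex3_ne h1 h2]; exact h3) (pcirc_ne h1 h2 t)
    · -- pcirc, keep
      exact absurd rfl (h' none (neg_ne_zero' hs))
    · -- pcirc, repl
      exact absurd (repl_self a X') (h' (some a) (by rw [pcirc_a]; exact hs))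
    · -- pcirc, lex3
      exact absurd (lex3_b hab X') (h' (some b) (by rw [pcirc_b]; exact hs))
    · -- pcirc, pcirc
      rcases sign_two hs ht with h1 | h1
      · left; rw [h1]
      · right; rw [h1, neg_pcirc]
  elim := fun Y hY Y' hY' hne o ho ho' => El_all hU hab hY hY' hne o ho ho'

theorem lexExt_isExtension (hU : IsUniform O r) (hr : 2 ≤ r) (hab : a ≠ b) :
    IsExtension O (lexExt O a b hU hr hab) := by
  intro X
  have hk : (fun o : Option α => o.elim 0 X) = keep X := by
    funext o
    rcases o with _ | e <;> rfl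
  rw [hk]
  constructor
  · intro hX
    exact Or.inl ⟨X, hX, rfl⟩
  · rintro (⟨X', hX', h⟩ | ⟨X', hX', hXa, h⟩ | ⟨X', hX', hXa, hXb, h⟩ | ⟨s, hs, h⟩)
    · have : X = X' := by
        funext e
        exact congrFun h (some e)
      rwa [this]
    · exact absurd (congrFun h none).symm hXa
    · exact absurd (congrFun h none).symm hXb
    · exact absurd (congrFun h none).symm (neg_ne_zero' hs)

theorem lexExt_simple (hU : IsUniform O r) (hr : 2 ≤ r) (hab : a ≠ b) :
    IsSimple (lexExt O a b hU hr hab) := by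
  have gen : ∀ (Y : Option α → SignType) (u v w : Option α), u ≠ v → u ≠ w → v ≠ w →
      Y u ≠ 0 → Y v ≠ 0 → Y w ≠ 0 → 3 ≤ (Function.support Y).ncard := by
    intro Y u v w h1 h2 h3 hu hv hw
    have hs : ({u, v, w} : Set (Option α)) ⊆ Function.support Y := by
      rintro o (rfl | rfl | rfl)
      · exact hu
      · exact hv
      · exact hw
    have hc : ({u, v, w} : Set (Option α)).ncard = 3 := by
      rw [Set.ncard_eq_three]; exact ⟨u, v, w, h1, h2, h3, rfl⟩
    rw [← hc]
    exact Set.ncard_le_ncard hs (Set.toFinite _)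
  -- two elements of the support other than a given one
  have two : ∀ X ∈ O.circuits, ∀ c : α, ∃ f g, f ≠ c ∧ g ≠ c ∧ f ≠ g ∧ X f ≠ 0 ∧ X g ≠ 0 := by
    intro X hX c
    obtain ⟨f, h1, -, h2⟩ := hU.outside hr c c hX
    obtain ⟨g, h3, h4, h5⟩ := hU.outside hr c f hX
    exact ⟨f, g, h1, h3, h4.symm, h2, h5⟩
  rintro Y (⟨X, hX, rfl⟩ | ⟨X, hX, hXa, rfl⟩ | ⟨X, hX, hXa, hXb, rfl⟩ | ⟨s, hs, rfl⟩)
  · obtain ⟨f, g, h1, h2, h3, h4, h5⟩ := two X hX a
    obtain ⟨k, h6, h7, h8⟩ := hU.outside hr f g hX
    exact gen _ (some f) (some g) (some k) (by simpa using h3) (by simpa using h6.symm)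
      (by simpa using h7.symm) h4 h5 h8
  · obtain ⟨f, g, h1, h2, h3, h4, h5⟩ := two X hX a
    exact gen _ none (some f) (some g) (by simp) (by simp) (by simpa using h3) hXa
      (by rw [repl_ne h1]; exact h4) (by rw [repl_ne h2]; exact h5)
  · obtain ⟨f, h1, h2, h3⟩ := hU.outside hr a b hX
    exact gen _ none (some a) (some f) (by simp) (by simp) (by simpa using h1.symm) hXb
      (by rw [lex3_a]; exact neg_ne_zero' hXb) (by rw [lex3_ne h1 h2]; exact h3)
  · exact gen _ none (some a) (some b) (by simp) (by simp) (by simpa using hab)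
      (neg_ne_zero' hs) (by rw [pcirc_a]; exact hs) (by rw [pcirc_b]; exact hs)

theorem lexExt_corresponds (hU : IsUniform O r) (hr : 2 ≤ r) (hab : a ≠ b) :
    Corresponds O (lexExt O a b hU hr hab) (throughCut₂ O a b) := by
  refine ⟨lexExt_isExtension hU hr hab, ?_⟩
  intro F
  constructor
  · rintro ⟨hF, haF, hbF⟩
    refine ⟨hF, ?_⟩
    rw [OMat.mem_closure_iff _ (by simp)]
    refine ⟨pcirc a b 1, Or.inr (Or.inr (Or.inr ⟨1, by decide, rfl⟩)),
      (by show (-1 : SignType) ≠ 0; decide), ?_⟩
    intro o ho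
    rcases o with _ | e
    · exact Or.inl rfl
    · by_cases h1 : e = a
      · subst h1; exact Or.inr ⟨e, haF, rfl⟩
      · by_cases h2 : e = b
        · subst h2; exact Or.inr ⟨e, hbF, rfl⟩
        · rw [Function.mem_support, pcirc_ne h1 h2] at ho
          exact absurd rfl ho
  · rintro ⟨hF, hcl⟩
    refine ⟨hF, ?_⟩
    rw [OMat.mem_closure_iff _ (by simp)] at hcl
    obtain ⟨Y, hY, hYn, hYs⟩ := hcl
    have hmem : ∀ e, Y (some e) ≠ 0 → e ∈ F := by
      intro e he
      have : some e ∈ insert (none : Option α) (some '' F) := hYs he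
      simpa using this
    have big : r ≤ F.ncard → a ∈ F ∧ b ∈ F := by
      intro hc
      rw [hU.flat_of_ge hc hF]
      exact ⟨Set.mem_univ _, Set.mem_univ _⟩
    rcases hY with ⟨X, hX, rfl⟩ | ⟨X, hX, hXa, rfl⟩ | ⟨X, hX, hXa, hXb, rfl⟩ | ⟨s, hs, rfl⟩
    · exact absurd rfl hYn
    · apply big
      have h1 : Function.support X \ {a} ⊆ F := by
        rintro e ⟨he, hea⟩
        exact hmem e (by rw [repl_ne hea]; exact he)
      have h2 := Set.ncard_le_ncard h1 (Set.toFinite _)
      rw [Set.ncard_sdiff_singleton_of_mem (show a ∈ Function.support X from hXa),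
        hU.card_circuit hX] at h2
      omega
    · apply big
      have h1 : Function.support X \ {b} ⊆ F := by
        rintro e ⟨he, heb⟩
        by_cases hea : e = a
        · rw [hea]
          exact hmem a (by rw [lex3_a]; exact neg_ne_zero' hXb)
        · exact hmem e (by rw [lex3_ne hea heb]; exact he)
      have h2 := Set.ncard_le_ncard h1 (Set.toFinite _)
      rw [Set.ncard_sdiff_singleton_of_mem (show b ∈ Function.support X from hXb),
        hU.card_circuit hX] at h2
      omega
    · exact ⟨hmem a (by rw [pcirc_a]; exact hs), hmem b (by rw [pcirc_b]; exact hs)⟩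

theorem modular_throughCut₂ (O : OMat α) (a b : α) :
    IsModularCut O.toMatroid (throughCut₂ O a b) where
  flat := fun _ hF => hF.1
  up := fun _ hF _ hG hFG => ⟨hG, hFG hF.2.1, hFG hF.2.2⟩
  inter := fun _ hF _ hG _ => ⟨flat_inter O hF.1 hG.1, ⟨hF.2.1, hG.2.1⟩, hF.2.2, hG.2.2⟩

theorem planesCut_subset₂ {A : Set α} {x : Fin 6 → α} (ha : a ∈ A) (hb : b ∈ A) :
    planesCut O A x ⊆ throughCut₂ O a b := fun _ hF =>
  ⟨(planesCut_subset ha hF).1, (planesCut_subset ha hF).2, (planesCut_subset hb hF).2⟩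

theorem exists_A₂ (hr : 5 ≤ r) (hn : r + 3 ≤ Nat.card α) (a b : α) :
    ∃ (A : Set α) (x : Fin 6 → α), a ∈ A ∧ b ∈ A ∧ A.ncard = r - 3 ∧ Function.Injective x ∧
      ∀ i, x i ∉ A := by
  classical
  obtain ⟨A, haA, -, hA⟩ := Set.exists_subsuperset_card_eq (s := ({a, b} : Set α))
    (t := Set.univ) (Set.subset_univ _) (n := r - 3)
    (by have := ncard_pair_le a b; omega) (by rw [Set.ncard_univ]; omega)
  have h1 : 6 ≤ (Aᶜ).ncard := by
    have := Set.ncard_add_ncard_compl A
    omega
  have h2 : Nat.card (Fin 6) ≤ Nat.card (Aᶜ : Set α) := by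
    rw [Nat.card_eq_fintype_card, Fintype.card_fin]
    exact h1
  have := Fintype.ofFinite (Aᶜ : Set α)
  rw [Nat.card_eq_fintype_card, Nat.card_eq_fintype_card] at h2
  obtain ⟨f⟩ := Function.Embedding.nonempty_of_card_le h2
  refine ⟨A, fun i => (f i : α), haA (Or.inl rfl), haA (Or.inr rfl), hA, ?_, fun i => (f i).2⟩
  intro i j hij
  exact f.injective (Subtype.ext hij)

theorem uniform_fails_pair (hU : IsUniform O r) (hr : 5 ≤ r) (hn : r + 3 ≤ Nat.card α)
    (hab : a ≠ b) : FailsAtPair O a b := by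
  obtain ⟨A, x, ha, hb, hA, hx, hxA⟩ := exists_A₂ hr hn a b
  have G := hU.generic (by omega) hA hx hxA
  have S := hU.separated (by omega) hA hx hxA
  refine ⟨modular_throughCut₂ O a b, ⟨lexExt O a b hU (by omega) hab,
    lexExt_corresponds hU (by omega) hab, lexExt_simple hU (by omega) hab⟩, ?_⟩
  rcases G.not_all with h | h | h
  · exact ⟨_, planesCut_subset₂ ha hb, G.modular S, h⟩
  · exact ⟨_, planesCut_subset₂ ha hb, (G.perm _).modular (S.perm _), h⟩
  · exact ⟨_, planesCut_subset₂ ha hb, (G.perm _).modular (S.perm _), h⟩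

end Pool.Agent.H29.OM
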